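import Pool.Agent.H84.TO.TargetsT

/-!
Module GRM for MP_b4e73a_pr (helper84): the Gram matrix of the functions `u_j`.
-/

open MeasureTheory Filter Topology
open Pool.Agent.H84.TO

namespace Pool.Agent.H30.TO

theorem kap_nonneg (ℓ : ℕ) (hl : 2 ≤ ℓ) : 0 ≤ kap ℓ := by
  unfold kap
  positivity

theorem wg_nonneg (ℓ : ℕ) (hl : 2 ≤ ℓ) (j : ℕ) : 0 ≤ wg ℓ j := by
  unfold wg
  have h1 : 0 < Real.Gamma (2 * (j : ℝ) + ℓ) := by
    apply Real.Gamma_pos_of_pos
    positivity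
  have h2 : 0 < Real.Gamma (2 * (j : ℝ) + 1) := by
    apply Real.Gamma_pos_of_pos
    positivity
  positivity

theorem bt_nonneg {x y : ℝ} (hx : 0 < x) (hy : 0 < y) : 0 ≤ bt x y := by
  unfold bt
  have h1 := Real.Gamma_pos_of_pos hx
  have h2 := Real.Gamma_pos_of_pos hy
  have h3 := Real.Gamma_pos_of_pos (add_pos hx hy)
  positivity

theorem continuous_uj (ℓ j : ℕ) : Continuous (uj ℓ j) := by
  unfold uj
  have h1 : Continuous fun y : ℝ => Real.cosh (y / 2) :=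
    Real.continuous_cosh.comp (continuous_id.div_const 2)
  have h2 : Continuous fun y : ℝ => Real.tanh (y / 2) := by
    have : (fun y : ℝ => Real.tanh (y / 2)) = fun y => Real.sinh (y / 2) / Real.cosh (y / 2) := by
      funext y
      exact Real.tanh_eq_sinh_div_cosh _
    rw [this]
    exact (Real.continuous_sinh.comp (continuous_id.div_const 2)).div h1
      (fun y => (Real.cosh_pos _).ne')
  exact (continuous_const.mul (h2.pow _)).mul
    ((h1.pow _).inv₀ (fun y => (pow_pos (Real.cosh_pos _) _).ne'))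

theorem uj_mul (ℓ : ℕ) (hl : 2 ≤ ℓ) (j k : ℕ) (y : ℝ) :
    uj ℓ j y * uj ℓ k y = kap ℓ / 2 * Real.sqrt (wg ℓ j * wg ℓ k) *
      (Real.tanh (y / 2) ^ (2 * (j + k)) * (Real.cosh (y / 2) ^ 2) ^ (-(ℓ : ℝ))) := by
  have hk := kap_nonneg ℓ hl
  have hc : 0 < Real.cosh (y / 2) := Real.cosh_pos _
  have h1 : Real.sqrt (kap ℓ * wg ℓ j / 2) * Real.sqrt (kap ℓ * wg ℓ k / 2)
      = kap ℓ / 2 * Real.sqrt (wg ℓ j * wg ℓ k) := by
    have e1 : kap ℓ * wg ℓ j / 2 = kap ℓ / 2 * wg ℓ j := by ring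
    have e2 : kap ℓ * wg ℓ k / 2 = kap ℓ / 2 * wg ℓ k := by ring
    rw [e1, e2, Real.sqrt_mul (by positivity), Real.sqrt_mul (by positivity),
      Real.sqrt_mul (wg_nonneg ℓ hl j)]
    have := Real.mul_self_sqrt (show 0 ≤ kap ℓ / 2 by positivity)
    linear_combination (Real.sqrt (wg ℓ j) * Real.sqrt (wg ℓ k)) * this
  have h2 : (Real.cosh (y / 2) ^ 2) ^ (-(ℓ : ℝ)) = ((Real.cosh (y / 2) ^ ℓ)⁻¹) ^ 2 := by
    rw [Real.rpow_neg (by positivity), Real.rpow_natCast, ← pow_mul, inv_pow, ← pow_mul,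
      mul_comm 2 ℓ]
  rw [h2, ← h1]
  unfold uj
  ring

theorem uj_single (ℓ : ℕ) (j : ℕ) (y : ℝ) :
    uj ℓ j y = Real.sqrt (kap ℓ * wg ℓ j / 2) *
      (Real.tanh (y / 2) ^ (2 * j) * (Real.cosh (y / 2) ^ 2) ^ (-((ℓ : ℝ) / 2))) := by
  have hc : 0 < Real.cosh (y / 2) := Real.cosh_pos _
  have h2 : (Real.cosh (y / 2) ^ 2) ^ (-((ℓ : ℝ) / 2)) = (Real.cosh (y / 2) ^ ℓ)⁻¹ := by
    rw [Real.rpow_neg (by positivity), ← Real.rpow_natCast (Real.cosh (y / 2)) 2,
      ← Real.rpow_mul hc.le, ← Real.rpow_natCast (Real.cosh (y / 2)) ℓ]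
    congr 2
    push_cast
    ring
  rw [h2]
  unfold uj
  ring

theorem grm (h : T_BET) : T_GRM := by
  intro ℓ hl
  have hl0 : (0 : ℝ) < ℓ := by
    have : (2 : ℝ) ≤ ℓ := by exact_mod_cast hl
    linarith
  have hprod : ∀ j k : ℕ, Integrable (fun y => uj ℓ j y * uj ℓ k y) ∧
      ∫ y, uj ℓ j y * uj ℓ k y = kap ℓ * Real.sqrt (wg ℓ j * wg ℓ k) * bt (j + k + 1 / 2) ℓ := by
    intro j k
    obtain ⟨⟨hi, he⟩, -⟩ := h (j + k) ℓ hl0
    have hfun : (fun y => uj ℓ j y * uj ℓ k y) = fun y =>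
        kap ℓ / 2 * Real.sqrt (wg ℓ j * wg ℓ k) *
        (Real.tanh (y / 2) ^ (2 * (j + k)) * (Real.cosh (y / 2) ^ 2) ^ (-(ℓ : ℝ))) := by
      funext y
      exact uj_mul ℓ hl j k y
    refine ⟨?_, ?_⟩
    · rw [hfun]
      exact hi.const_mul _
    · rw [hfun, integral_const_mul, he]
      push_cast
      ring
  have hsing : ∀ j : ℕ, Continuous (uj ℓ j) ∧ Integrable (uj ℓ j) ∧
      ∫ y, uj ℓ j y = Real.sqrt (kap ℓ * wg ℓ j / 2) * (2 * bt (j + 1 / 2) (ℓ / 2)) := by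
    intro j
    obtain ⟨⟨hi, he⟩, -⟩ := h j ((ℓ : ℝ) / 2) (by positivity)
    have hfun : uj ℓ j = fun y => Real.sqrt (kap ℓ * wg ℓ j / 2) *
        (Real.tanh (y / 2) ^ (2 * j) * (Real.cosh (y / 2) ^ 2) ^ (-((ℓ : ℝ) / 2))) := by
      funext y
      exact uj_single ℓ j y
    refine ⟨continuous_uj ℓ j, ?_, ?_⟩
    · rw [hfun]
      exact hi.const_mul _
    · rw [hfun, integral_const_mul, he]
  refine ⟨hprod, hsing, ?_, ?_⟩
  · intro n
    have hSS : ∀ j k : Fin n, SS ℓ n j k = ∫ y, uj ℓ j y * uj ℓ k y := by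
      intro j k
      rw [(hprod j k).2]
      rfl
    refine Matrix.PosSemidef.of_dotProduct_mulVec_nonneg ?_ ?_
    · ext j k
      rw [Matrix.conjTranspose_apply, hSS, hSS, star_trivial]
      congr 1
      funext y
      ring
    · intro c
      have key : star c ⬝ᵥ (SS ℓ n).mulVec c = ∫ y, (∑ j : Fin n, c j * uj ℓ j y) ^ 2 := by
        have e1 : (fun y => (∑ j : Fin n, c j * uj ℓ j y) ^ 2) = fun y =>
            ∑ j : Fin n, ∑ k : Fin n, (c j * c k) * (uj ℓ j y * uj ℓ k y) := by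
          funext y
          rw [sq, Finset.sum_mul_sum]
          refine Finset.sum_congr rfl fun j _ => Finset.sum_congr rfl fun k _ => ?_
          ring
        have i1 : ∀ j k : Fin n, Integrable
            (fun y => (c j * c k) * (uj ℓ (j : ℕ) y * uj ℓ (k : ℕ) y)) :=
          fun j k => ((hprod j k).1).const_mul _
        have i2 : ∀ j : Fin n, Integrable
            (fun y => ∑ k : Fin n, (c j * c k) * (uj ℓ (j : ℕ) y * uj ℓ (k : ℕ) y)) :=
          fun j => integrable_finsetSum _ (fun k _ => i1 j k)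
        rw [e1, integral_finsetSum _ (fun j _ => i2 j)]
        rw [dotProduct]
        refine Finset.sum_congr rfl fun j _ => ?_
        rw [integral_finsetSum _ (fun k _ => i1 j k), Matrix.mulVec,
          dotProduct, Finset.mul_sum]
        refine Finset.sum_congr rfl fun k _ => ?_
        rw [integral_const_mul, hSS]
        simp only [Pi.star_apply, star_trivial]
        ring
      rw [key]
      exact integral_nonneg fun y => sq_nonneg _
  · intro n j k
    have hb : 0 ≤ bt ((j : ℕ) + (k : ℕ) + 1 / 2 : ℝ) ℓ := bt_nonneg (by positivity) hl0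
    have := kap_nonneg ℓ hl
    unfold SS
    positivity

end Pool.Agent.H30.TO
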