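import Pool.Agent.H30.TO.Tool

/-!
Module POL for MP_b4e73a_pr (helper84): polar decomposition of `ℓ × 2` matrices.
-/

open MeasureTheory Matrix Set
open scoped ENNReal
open Pool.Agent.H84.TO

namespace Pool.Agent.H30.TO

/-- scaling on the line -/
theorem scale1 (k : ℝ) (hk : 0 < k) (F : ℝ → ℝ≥0∞) (hF : Measurable F) :
    ∫⁻ s : ℝ, F (k * s) = ENNReal.ofReal k⁻¹ * ∫⁻ y : ℝ, F y := by
  have h6 := Measure.map_linearMap_addHaar_eq_smul_addHaar (volume : Measure ℝ)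
    (f := (LinearMap.mul ℝ ℝ) k) (by
      rw [LinearMap.det_ring]
      simpa using hk.ne')
  have h8 := lintegral_map hF (g := (LinearMap.mul ℝ ℝ) k) (μ := volume)
    (LinearMap.continuous_of_finiteDimensional _).measurable
  rw [h6, lintegral_smul_measure] at h8
  rw [LinearMap.det_ring] at h8
  have h9 : |k⁻¹| = k⁻¹ := abs_of_pos (by positivity)
  simpa [h9, abs_of_pos hk] using h8.symm

/-- radial functions -/
theorem radial (m : ℕ) (hm : 1 ≤ m) : ∃ c : ℝ, 0 < c ∧ ∀ k : ℝ → ℝ≥0∞, Measurable k →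
    ∫⁻ w : EuclideanSpace ℝ (Fin m), k (‖w‖ ^ 2)
      = ENNReal.ofReal c * ∫⁻ ρ in Ioi (0 : ℝ), ENNReal.ofReal (ρ ^ ((m : ℝ) / 2 - 1)) * k ρ := by
  have : Nonempty (Fin m) := ⟨⟨0, hm⟩⟩
  set μ : Measure (EuclideanSpace ℝ (Fin m)) := volume with hμ
  set S : ℝ≥0∞ := μ.toSphere univ with hS
  have hSt : S ≠ ∞ := measure_ne_top _ _
  have hS0 : S ≠ 0 := by
    rw [hS, Measure.measure_univ_ne_zero]
    exact Measure.toSphere_ne_zero μ
  have hSr : 0 < S.toReal := ENNReal.toReal_pos hS0 hSt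
  refine ⟨S.toReal / 2, by positivity, fun k hk => ?_⟩
  have hdim : Module.finrank ℝ (EuclideanSpace ℝ (Fin m)) = m := by simp
  have h1 : ∫⁻ w : EuclideanSpace ℝ (Fin m), k (‖w‖ ^ 2)
      = ∫⁻ w : ({(0 : EuclideanSpace ℝ (Fin m))}ᶜ : Set (EuclideanSpace ℝ (Fin m))),
        k (‖(w : EuclideanSpace ℝ (Fin m))‖ ^ 2) ∂(μ.comap (↑)) := by
    rw [lintegral_subtype_comap (measurableSet_singleton _).compl
      (fun w : EuclideanSpace ℝ (Fin m) => k (‖w‖ ^ 2)), restrict_compl_singleton]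
  rw [h1]
  have h2 := μ.measurePreserving_homeomorphUnitSphereProd.lintegral_comp_emb
    (Homeomorph.measurableEmbedding _) (fun p => k (p.2.1 ^ 2))
  simp only [homeomorphUnitSphereProd_apply_snd_coe] at h2
  rw [h2]
  have hk2 : Measurable fun r : Ioi (0 : ℝ) => k (r.1 ^ 2) :=
    hk.comp ((measurable_subtype_coe).pow_const 2)
  have h3 : ∫⁻ p, k (p.2.1 ^ 2) ∂(μ.toSphere.prod
      (Measure.volumeIoiPow (Module.finrank ℝ (EuclideanSpace ℝ (Fin m)) - 1)))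
      = S * ∫⁻ r : Ioi (0 : ℝ), k (r.1 ^ 2) ∂(Measure.volumeIoiPow (m - 1)) := by
    have hk3 : Measurable fun p : Metric.sphere (0 : EuclideanSpace ℝ (Fin m)) 1 × Ioi (0 : ℝ) =>
        k (p.2.1 ^ 2) := hk2.comp measurable_snd
    rw [hdim, lintegral_prod _ hk3.aemeasurable]
    simp only [lintegral_const]
    rw [mul_comm]
  rw [h3]
  have h4 : ∫⁻ r : Ioi (0 : ℝ), k (r.1 ^ 2) ∂(Measure.volumeIoiPow (m - 1))
      = ∫⁻ x in Ioi (0 : ℝ), ENNReal.ofReal (x ^ (m - 1)) * k (x ^ 2) := by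
    unfold Measure.volumeIoiPow
    rw [lintegral_withDensity_eq_lintegral_mul _ (by fun_prop) hk2]
    exact lintegral_subtype_comap measurableSet_Ioi
      (fun x : ℝ => ENNReal.ofReal (x ^ (m - 1)) * k (x ^ 2))
  rw [h4, subst_sq (fun ρ => ENNReal.ofReal (ρ ^ ((m : ℝ) / 2 - 1)) * k ρ)]
  have h5 : ∫⁻ x in Ioi (0 : ℝ), ENNReal.ofReal (2 * x) *
      (ENNReal.ofReal ((x ^ 2) ^ ((m : ℝ) / 2 - 1)) * k (x ^ 2))
      = ENNReal.ofReal 2 * ∫⁻ x in Ioi (0 : ℝ), ENNReal.ofReal (x ^ (m - 1)) * k (x ^ 2) := by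
    rw [← lintegral_const_mul _ (by fun_prop)]
    refine setLIntegral_congr_fun measurableSet_Ioi fun x hx => ?_
    have hx' : 0 < x := hx
    rw [← mul_assoc, ← mul_assoc, ← ENNReal.ofReal_mul (by positivity),
      ← ENNReal.ofReal_mul (by norm_num)]
    congr 2
    rw [← Real.rpow_natCast x 2, ← Real.rpow_mul hx'.le, ← Real.rpow_natCast x (m - 1),
      Nat.cast_sub hm]
    have h6 : x = x ^ (1 : ℝ) := (Real.rpow_one x).symm
    have h7 : x * x ^ (((2 : ℕ) : ℝ) * ((m : ℝ) / 2 - 1)) = x ^ ((m : ℝ) - ((1 : ℕ) : ℝ)) := by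
      nth_rewrite 1 [h6]
      rw [← Real.rpow_add hx']
      congr 1
      push_cast
      ring
    rw [mul_assoc, h7]
  rw [h5, ← mul_assoc, ← ENNReal.ofReal_mul (by positivity)]
  congr 1
  rw [div_mul_cancel₀ _ (two_ne_zero), ENNReal.ofReal_toReal hSt]

/-- splitting off the first coordinate -/
theorem split_first (m : ℕ) (H : ℝ → ℝ → ℝ≥0∞) (hH : Measurable (Function.uncurry H)) :
    ∫⁻ w : EuclideanSpace ℝ (Fin (m + 1)), H (w 0) (‖w‖ ^ 2)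
      = ∫⁻ s : ℝ, ∫⁻ w' : EuclideanSpace ℝ (Fin m), H s (s ^ 2 + ‖w'‖ ^ 2) := by
  have h1 := PiLp.volume_preserving_ofLp (Fin (m + 1))
  have h2 := volume_preserving_piFinSuccAbove (fun _ : Fin (m + 1) => ℝ) 0
  have h3 := (MeasurePreserving.id (volume : Measure ℝ)).prod (PiLp.volume_preserving_toLp (Fin m))
  have h4 := h3.comp (h2.comp h1)
  have hm : Measurable fun p : ℝ × EuclideanSpace ℝ (Fin m) => H p.1 (p.1 ^ 2 + ‖p.2‖ ^ 2) := by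
    have h5 : Measurable fun p : ℝ × EuclideanSpace ℝ (Fin m) => (p.1, p.1 ^ 2 + ‖p.2‖ ^ 2) := by
      fun_prop
    exact hH.comp h5
  have h5 := h4.lintegral_comp hm
  have h6 : ∀ w : EuclideanSpace ℝ (Fin (m + 1)), H (w 0) (‖w‖ ^ 2) =
      (fun p : ℝ × EuclideanSpace ℝ (Fin m) => H p.1 (p.1 ^ 2 + ‖p.2‖ ^ 2))
        ((Prod.map id (WithLp.toLp 2) ∘ (MeasurableEquiv.piFinSuccAbove (fun _ : Fin (m + 1) => ℝ) 0)
          ∘ WithLp.ofLp) w) := by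
    intro w
    simp only [Function.comp]
    have e1 : ‖w‖ ^ 2 = w 0 ^ 2 + ∑ i : Fin m, w i.succ ^ 2 := by
      rw [EuclideanSpace.real_norm_sq_eq, Fin.sum_univ_succ]
    have e2 : ‖(WithLp.toLp 2 (fun i : Fin m => w i.succ) : EuclideanSpace ℝ (Fin m))‖ ^ 2
        = ∑ i : Fin m, w i.succ ^ 2 := by
      rw [EuclideanSpace.real_norm_sq_eq]
    rw [e1, ← e2]
    rfl
  simp only [h6]
  rw [h5]
  exact lintegral_prod _ hm.aemeasurable

/-- the inner integral, for a fixed nonzero vector -/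
theorem rotate {ℓ : ℕ} (hl : 1 ≤ ℓ) (v : EuclideanSpace ℝ (Fin ℓ)) (H : ℝ → ℝ → ℝ≥0∞) :
    ∫⁻ w : EuclideanSpace ℝ (Fin ℓ), H (inner ℝ v w) (‖w‖ ^ 2)
      = ∫⁻ w : EuclideanSpace ℝ (Fin ℓ), H (‖v‖ * w ⟨0, hl⟩) (‖w‖ ^ 2) := by
  set e : EuclideanSpace ℝ (Fin ℓ) := ‖v‖ • EuclideanSpace.single ⟨0, hl⟩ (1 : ℝ) with he
  have hne : ‖v‖ = ‖e‖ := by
    rw [he, norm_smul, PiLp.norm_single]
    simp
  set R := (ℝ ∙ (v - e))ᗮ.reflection with hR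
  have h1 : R v = e := Submodule.reflection_sub hne
  have h2 := (R.measurePreserving).lintegral_comp_emb R.toHomeomorph.measurableEmbedding
    (fun w => H (inner ℝ e w) (‖w‖ ^ 2))
  have h3 : ∀ w, inner ℝ e (R w) = inner ℝ v w := by
    intro w
    rw [← h1, R.inner_map_map]
  simp only [h3, LinearIsometryEquiv.norm_map] at h2
  rw [h2]
  have h4 : ∀ w : EuclideanSpace ℝ (Fin ℓ), inner ℝ e w = ‖v‖ * w ⟨0, hl⟩ := by
    intro w
    rw [he, inner_smul_left, EuclideanSpace.inner_single_left]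
    simp
  simp only [h4]

/-- columns of an `ℓ × 2` matrix -/
theorem columns (ℓ : ℕ) (G : ℝ → ℝ → ℝ → ℝ≥0∞)
    (hG : Measurable fun p : ℝ × ℝ × ℝ => G p.1 p.2.1 p.2.2) :
    ∫⁻ W : Matrix (Fin ℓ) (Fin 2) ℝ, G ((Wᵀ * W) 0 0) ((Wᵀ * W) 0 1) ((Wᵀ * W) 1 1)
      = ∫⁻ v : EuclideanSpace ℝ (Fin ℓ), ∫⁻ w : EuclideanSpace ℝ (Fin ℓ),
        G (‖v‖ ^ 2) (inner ℝ v w) (‖w‖ ^ 2) := by
  have h1 : MeasurePreserving (fun (W : Fin ℓ → Fin 2 → ℝ) (i : Fin ℓ) =>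
      MeasurableEquiv.piFinTwo (fun _ : Fin 2 => ℝ) (W i)) :=
    volume_preserving_pi (fun _ => volume_preserving_piFinTwo (fun _ : Fin 2 => ℝ))
  have h2 := volume_measurePreserving_arrowProdEquivProdArrow ℝ ℝ (Fin ℓ)
  have h3 := (PiLp.volume_preserving_toLp (Fin ℓ)).prod (PiLp.volume_preserving_toLp (Fin ℓ))
  have h4 := h3.comp (h2.comp h1)
  have hm : Measurable fun p : EuclideanSpace ℝ (Fin ℓ) × EuclideanSpace ℝ (Fin ℓ) =>
      G (‖p.1‖ ^ 2) (inner ℝ p.1 p.2) (‖p.2‖ ^ 2) := by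
    have h5 : Measurable fun p : EuclideanSpace ℝ (Fin ℓ) × EuclideanSpace ℝ (Fin ℓ) =>
        (‖p.1‖ ^ 2, (inner ℝ p.1 p.2 : ℝ), ‖p.2‖ ^ 2) := by
      fun_prop
    exact hG.comp h5
  have h5 := h4.lintegral_comp hm
  have h6 : ∀ W : Matrix (Fin ℓ) (Fin 2) ℝ,
      G ((Wᵀ * W) 0 0) ((Wᵀ * W) 0 1) ((Wᵀ * W) 1 1) =
      (fun p : EuclideanSpace ℝ (Fin ℓ) × EuclideanSpace ℝ (Fin ℓ) =>
        G (‖p.1‖ ^ 2) (inner ℝ p.1 p.2) (‖p.2‖ ^ 2))
      ((Prod.map (WithLp.toLp 2) (WithLp.toLp 2) ∘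
        (MeasurableEquiv.arrowProdEquivProdArrow ℝ ℝ (Fin ℓ)) ∘
        (fun (W : Fin ℓ → Fin 2 → ℝ) (i : Fin ℓ) =>
          MeasurableEquiv.piFinTwo (fun _ : Fin 2 => ℝ) (W i))) W) := by
    intro W
    have e0 : (Prod.map (WithLp.toLp 2) (WithLp.toLp 2) ∘
        (MeasurableEquiv.arrowProdEquivProdArrow ℝ ℝ (Fin ℓ)) ∘
        (fun (W : Fin ℓ → Fin 2 → ℝ) (i : Fin ℓ) =>
          MeasurableEquiv.piFinTwo (fun _ : Fin 2 => ℝ) (W i))) W
        = ((WithLp.toLp 2 (fun i => W i 0) : EuclideanSpace ℝ (Fin ℓ)),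
          (WithLp.toLp 2 (fun i => W i 1) : EuclideanSpace ℝ (Fin ℓ))) := rfl
    rw [e0]
    simp only
    rw [EuclideanSpace.real_norm_sq_eq, EuclideanSpace.real_norm_sq_eq]
    have e1 : (Wᵀ * W) 0 0 = ∑ i, W i 0 ^ 2 := by
      rw [Matrix.mul_apply]
      exact Finset.sum_congr rfl fun i _ => by rw [Matrix.transpose_apply]; ring
    have e2 : (Wᵀ * W) 1 1 = ∑ i, W i 1 ^ 2 := by
      rw [Matrix.mul_apply]
      exact Finset.sum_congr rfl fun i _ => by rw [Matrix.transpose_apply]; ring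
    have e3 : (Wᵀ * W) 0 1 = inner ℝ (WithLp.toLp 2 (fun i => W i 0) : EuclideanSpace ℝ (Fin ℓ))
        (WithLp.toLp 2 (fun i => W i 1)) := by
      rw [Matrix.mul_apply, PiLp.inner_apply]
      refine Finset.sum_congr rfl fun i _ => ?_
      rw [Matrix.transpose_apply]
      simp [mul_comm]
    rw [e1, e2, e3]
  simp only [h6]
  have h7 : ∫⁻ W : Matrix (Fin ℓ) (Fin 2) ℝ,
      (fun p : EuclideanSpace ℝ (Fin ℓ) × EuclideanSpace ℝ (Fin ℓ) =>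
        G (‖p.1‖ ^ 2) (inner ℝ p.1 p.2) (‖p.2‖ ^ 2))
      ((Prod.map (WithLp.toLp 2) (WithLp.toLp 2) ∘
        (MeasurableEquiv.arrowProdEquivProdArrow ℝ ℝ (Fin ℓ)) ∘
        (fun (W : Fin ℓ → Fin 2 → ℝ) (i : Fin ℓ) =>
          MeasurableEquiv.piFinTwo (fun _ : Fin 2 => ℝ) (W i))) W)
      = ∫⁻ p : EuclideanSpace ℝ (Fin ℓ) × EuclideanSpace ℝ (Fin ℓ),
        G (‖p.1‖ ^ 2) (inner ℝ p.1 p.2) (‖p.2‖ ^ 2) := h5
  rw [h7]
  exact lintegral_prod _ hm.aemeasurable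

/-- the inner integral in the variables `y, z` -/
noncomputable def Psi (ℓ : ℕ) (G : ℝ → ℝ → ℝ → ℝ≥0∞) (x : ℝ) : ℝ≥0∞ :=
  ∫⁻ y : ℝ, ∫⁻ z : ℝ, indicator (Ioi (y ^ 2 / x)) (fun z =>
    ENNReal.ofReal ((z - y ^ 2 / x) ^ (((ℓ : ℝ) - 3) / 2)) * G x y z) z

theorem pol : T_POL := by
  intro ℓ hl
  obtain ⟨m, rfl⟩ : ∃ m, ℓ = m + 1 := ⟨ℓ - 1, by omega⟩
  have hm1 : 1 ≤ m := by omega
  obtain ⟨c1, hc1, hr1⟩ := radial m hm1
  obtain ⟨c2, hc2, hr2⟩ := radial (m + 1) (by omega)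
  refine ⟨c2 * c1, by positivity, fun g hg => ?_⟩
  set G : ℝ → ℝ → ℝ → ℝ≥0∞ := fun x y z => g !![x, y; y, z] with hGdef
  have hmat : Measurable fun p : ℝ × ℝ × ℝ =>
      (!![p.1, p.2.1; p.2.1, p.2.2] : Matrix (Fin 2) (Fin 2) ℝ) := by
    refine measurable_pi_iff.mpr fun i => measurable_pi_iff.mpr fun j => ?_
    fin_cases i <;> fin_cases j
    · exact measurable_fst
    · exact measurable_snd.fst
    · exact measurable_snd.fst
    · exact measurable_snd.snd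
  have hG : Measurable fun p : ℝ × ℝ × ℝ => G p.1 p.2.1 p.2.2 := hg.comp hmat
  have h0 : ∀ W : Matrix (Fin (m + 1)) (Fin 2) ℝ, g (Wᵀ * W)
      = G ((Wᵀ * W) 0 0) ((Wᵀ * W) 0 1) ((Wᵀ * W) 1 1) := by
    intro W
    rw [hGdef]
    simp only
    congr 1
    have hsym : (Wᵀ * W) 1 0 = (Wᵀ * W) 0 1 := by
      rw [Matrix.mul_apply, Matrix.mul_apply]
      refine Finset.sum_congr rfl fun i _ => ?_
      rw [Matrix.transpose_apply, Matrix.transpose_apply]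
      ring
    conv_lhs => rw [Matrix.eta_fin_two (Wᵀ * W)]
    rw [hsym]
  simp only [h0]
  rw [columns (m + 1) G hG]
  -- inner integral
  have hinner : ∀ v : EuclideanSpace ℝ (Fin (m + 1)), v ≠ 0 →
      ∫⁻ w : EuclideanSpace ℝ (Fin (m + 1)), G (‖v‖ ^ 2) (inner ℝ v w) (‖w‖ ^ 2)
      = ENNReal.ofReal c1 * (ENNReal.ofReal (√(‖v‖ ^ 2))⁻¹ * Psi (m + 1) G (‖v‖ ^ 2)) := by
    intro v hv
    have hv0 : 0 < ‖v‖ := norm_pos_iff.mpr hv
    have hGv : Measurable (Function.uncurry (fun a b => G (‖v‖ ^ 2) a b)) := by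
      have h1 : Measurable fun p : ℝ × ℝ => (‖v‖ ^ 2, p.1, p.2) := by fun_prop
      exact hG.comp h1
    rw [rotate (by omega) v (fun a b => G (‖v‖ ^ 2) a b)]
    have hGs : Measurable (Function.uncurry (fun a b => G (‖v‖ ^ 2) (‖v‖ * a) b)) := by
      have h1 : Measurable fun p : ℝ × ℝ => (‖v‖ ^ 2, ‖v‖ * p.1, p.2) := by fun_prop
      exact hG.comp h1
    have h2 := split_first m (fun a b => G (‖v‖ ^ 2) (‖v‖ * a) b) hGs
    have h2' : ∫⁻ w : EuclideanSpace ℝ (Fin (m + 1)), G (‖v‖ ^ 2) (‖v‖ * w ⟨0, by omega⟩) (‖w‖ ^ 2)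
        = ∫⁻ s : ℝ, ∫⁻ w' : EuclideanSpace ℝ (Fin m), G (‖v‖ ^ 2) (‖v‖ * s) (s ^ 2 + ‖w'‖ ^ 2) := h2
    rw [h2']
    have h3 : ∀ s : ℝ, ∫⁻ w' : EuclideanSpace ℝ (Fin m), G (‖v‖ ^ 2) (‖v‖ * s) (s ^ 2 + ‖w'‖ ^ 2)
        = ENNReal.ofReal c1 * ∫⁻ ρ in Ioi (0 : ℝ), ENNReal.ofReal (ρ ^ ((m : ℝ) / 2 - 1)) *
          G (‖v‖ ^ 2) (‖v‖ * s) (s ^ 2 + ρ) := by
      intro s
      refine hr1 (fun ρ => G (‖v‖ ^ 2) (‖v‖ * s) (s ^ 2 + ρ)) ?_
      have h1 : Measurable fun ρ : ℝ => (‖v‖ ^ 2, ‖v‖ * s, s ^ 2 + ρ) := by fun_prop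
      exact hG.comp h1
    simp only [h3]
    have hm3 : Measurable fun p : ℝ × ℝ => ENNReal.ofReal (p.2 ^ ((m : ℝ) / 2 - 1)) *
        G (‖v‖ ^ 2) (‖v‖ * p.1) (p.1 ^ 2 + p.2) := by
      have h1 : Measurable fun p : ℝ × ℝ => (‖v‖ ^ 2, ‖v‖ * p.1, p.1 ^ 2 + p.2) := by fun_prop
      exact (by fun_prop : Measurable fun p : ℝ × ℝ =>
        ENNReal.ofReal (p.2 ^ ((m : ℝ) / 2 - 1))).mul (hG.comp h1)
    rw [lintegral_const_mul _ hm3.lintegral_prod_right']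
    congr 1
    rw [Real.sqrt_sq hv0.le]
    -- change of variables
    have h4 : ∀ s : ℝ, ∫⁻ ρ in Ioi (0 : ℝ), ENNReal.ofReal (ρ ^ ((m : ℝ) / 2 - 1)) *
          G (‖v‖ ^ 2) (‖v‖ * s) (s ^ 2 + ρ)
        = (fun y : ℝ => ∫⁻ z : ℝ, indicator (Ioi (y ^ 2 / ‖v‖ ^ 2)) (fun z =>
          ENNReal.ofReal ((z - y ^ 2 / ‖v‖ ^ 2) ^ ((((m + 1 : ℕ) : ℝ) - 3) / 2)) *
            G (‖v‖ ^ 2) y z) z) (‖v‖ * s) := by
      intro s
      simp only
      have e1 : (‖v‖ * s) ^ 2 / ‖v‖ ^ 2 = s ^ 2 := by field_simp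
      have e2 : (((m + 1 : ℕ) : ℝ) - 3) / 2 = (m : ℝ) / 2 - 1 := by push_cast; ring
      rw [e1, e2, ← lintegral_add_left_eq_self (μ := volume) (fun z => indicator (Ioi (s ^ 2))
        (fun z => ENNReal.ofReal ((z - s ^ 2) ^ ((m : ℝ) / 2 - 1)) *
            G (‖v‖ ^ 2) (‖v‖ * s) z) z) (s ^ 2), ← lintegral_indicator measurableSet_Ioi]
      congr 1
      funext ρ
      by_cases hρ : 0 < ρ
      · rw [indicator_of_mem (show ρ ∈ Ioi (0 : ℝ) from hρ),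
          indicator_of_mem (show s ^ 2 + ρ ∈ Ioi (s ^ 2) from by
            change s ^ 2 < s ^ 2 + ρ
            linarith)]
        rw [add_sub_cancel_left]
      · rw [indicator_of_notMem (show ρ ∉ Ioi (0 : ℝ) from hρ), indicator_of_notMem]
        intro h
        apply hρ
        have h' : s ^ 2 < s ^ 2 + ρ := h
        linarith
    simp only [h4]
    have hm5 : Measurable fun y : ℝ => ∫⁻ z : ℝ, indicator (Ioi (y ^ 2 / ‖v‖ ^ 2)) (fun z =>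
          ENNReal.ofReal ((z - y ^ 2 / ‖v‖ ^ 2) ^ ((((m + 1 : ℕ) : ℝ) - 3) / 2)) *
            G (‖v‖ ^ 2) y z) z := by
      have h5 : Measurable (indicator {p : ℝ × ℝ | p.1 ^ 2 / ‖v‖ ^ 2 < p.2} (fun p : ℝ × ℝ =>
          ENNReal.ofReal ((p.2 - p.1 ^ 2 / ‖v‖ ^ 2) ^ ((((m + 1 : ℕ) : ℝ) - 3) / 2)) *
            G (‖v‖ ^ 2) p.1 p.2)) := by
        refine Measurable.indicator ?_ (measurableSet_lt (by fun_prop) (by fun_prop))
        exact (by fun_prop : Measurable fun p : ℝ × ℝ =>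
          ENNReal.ofReal ((p.2 - p.1 ^ 2 / ‖v‖ ^ 2) ^ ((((m + 1 : ℕ) : ℝ) - 3) / 2))).mul hGv
      exact h5.lintegral_prod_right'
    have h6 := scale1 ‖v‖ hv0 _ hm5
    rw [h6]
    rfl
  have hae : ∫⁻ v : EuclideanSpace ℝ (Fin (m + 1)), ∫⁻ w : EuclideanSpace ℝ (Fin (m + 1)),
      G (‖v‖ ^ 2) (inner ℝ v w) (‖w‖ ^ 2)
      = ∫⁻ v : EuclideanSpace ℝ (Fin (m + 1)),
        (fun x => ENNReal.ofReal c1 * (ENNReal.ofReal (√x)⁻¹ * Psi (m + 1) G x)) (‖v‖ ^ 2) := by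
    apply lintegral_congr_ae
    have : Nonempty (Fin (m + 1)) := ⟨0⟩
    have h1 : ∀ᵐ v : EuclideanSpace ℝ (Fin (m + 1)), v ≠ 0 := by
      have := Measure.ae_ne (volume : Measure (EuclideanSpace ℝ (Fin (m + 1)))) 0
      exact this
    filter_upwards [h1] with v hv
    exact hinner v hv
  rw [hae]
  have hPsi : Measurable (Psi (m + 1) G) := by
    unfold Psi
    have h5 : Measurable (indicator {p : (ℝ × ℝ) × ℝ | p.1.2 ^ 2 / p.1.1 < p.2}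
        (fun p : (ℝ × ℝ) × ℝ =>
          ENNReal.ofReal ((p.2 - p.1.2 ^ 2 / p.1.1) ^ ((((m + 1 : ℕ) : ℝ) - 3) / 2)) *
            G p.1.1 p.1.2 p.2)) := by
      refine Measurable.indicator ?_ (measurableSet_lt (by fun_prop) (by fun_prop))
      have h1 : Measurable fun p : (ℝ × ℝ) × ℝ => (p.1.1, p.1.2, p.2) := by fun_prop
      exact (by fun_prop : Measurable fun p : (ℝ × ℝ) × ℝ =>
        ENNReal.ofReal ((p.2 - p.1.2 ^ 2 / p.1.1) ^ ((((m + 1 : ℕ) : ℝ) - 3) / 2))).mul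
          (hG.comp h1)
    have h6 : Measurable fun q : ℝ × ℝ => ∫⁻ z : ℝ, indicator (Ioi (q.2 ^ 2 / q.1)) (fun z =>
        ENNReal.ofReal ((z - q.2 ^ 2 / q.1) ^ ((((m + 1 : ℕ) : ℝ) - 3) / 2)) * G q.1 q.2 z) z :=
      h5.lintegral_prod_right'
    exact h6.lintegral_prod_right'
  rw [hr2 (fun x => ENNReal.ofReal c1 * (ENNReal.ofReal (√x)⁻¹ * Psi (m + 1) G x)) (by fun_prop)]
  rw [ENNReal.ofReal_mul hc2.le, mul_assoc]
  congr 1
  rw [← lintegral_const_mul _ ?_, ← lintegral_indicator measurableSet_Ioi]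
  swap
  · have h5 : Measurable (indicator {p : (ℝ × ℝ) × ℝ | 0 < p.1.1 + p.2 ∧
        0 < p.1.1 * p.2 - p.1.2 * p.1.2}
        (fun p : (ℝ × ℝ) × ℝ => g !![p.1.1, p.1.2; p.1.2, p.2] * ENNReal.ofReal
          ((p.1.1 * p.2 - p.1.2 * p.1.2) ^ ((((m + 1 : ℕ) : ℝ) - 3) / 2)))) := by
      refine Measurable.indicator ?_ (MeasurableSet.inter (s₁ := {p : (ℝ × ℝ) × ℝ | 0 < p.1.1 + p.2})
        (s₂ := {p : (ℝ × ℝ) × ℝ | 0 < p.1.1 * p.2 - p.1.2 * p.1.2})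
        (measurableSet_lt (by fun_prop) (by fun_prop))
        (measurableSet_lt (by fun_prop) (by fun_prop)))
      have h1 : Measurable fun p : (ℝ × ℝ) × ℝ => (p.1.1, p.1.2, p.2) := by fun_prop
      exact (hG.comp h1).mul (by fun_prop)
    have h6 : (fun x : ℝ => ∫⁻ y : ℝ, ∫⁻ z : ℝ,
        Set.indicator {Q : Matrix (Fin 2) (Fin 2) ℝ | Q.PosDef}
            (fun Q => g Q * ENNReal.ofReal (Q.det ^ ((((m + 1 : ℕ) : ℝ) - 3) / 2)))
            !![x, y; y, z]) = fun x : ℝ => ∫⁻ y : ℝ, ∫⁻ z : ℝ,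
        (indicator {p : (ℝ × ℝ) × ℝ | 0 < p.1.1 + p.2 ∧ 0 < p.1.1 * p.2 - p.1.2 * p.1.2}
        (fun p : (ℝ × ℝ) × ℝ => g !![p.1.1, p.1.2; p.1.2, p.2] * ENNReal.ofReal
          ((p.1.1 * p.2 - p.1.2 * p.1.2) ^ ((((m + 1 : ℕ) : ℝ) - 3) / 2)))) ((x, y), z) := by
      funext x
      congr 1
      funext y
      congr 1
      funext z
      by_cases h : (!![x, y; y, z] : Matrix (Fin 2) (Fin 2) ℝ).PosDef
      · rw [indicator_of_mem (show (!![x, y; y, z] : Matrix (Fin 2) (Fin 2) ℝ) ∈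
          {Q : Matrix (Fin 2) (Fin 2) ℝ | Q.PosDef} from h), indicator_of_mem
          (show ((x, y), z) ∈ {p : (ℝ × ℝ) × ℝ | 0 < p.1.1 + p.2 ∧
            0 < p.1.1 * p.2 - p.1.2 * p.1.2} from (posDef_two_iff_trace x y z).mp h),
          Matrix.det_fin_two_of]
      · rw [indicator_of_notMem (show (!![x, y; y, z] : Matrix (Fin 2) (Fin 2) ℝ) ∉
          {Q : Matrix (Fin 2) (Fin 2) ℝ | Q.PosDef} from h), indicator_of_notMem
          (show ((x, y), z) ∉ {p : (ℝ × ℝ) × ℝ | 0 < p.1.1 + p.2 ∧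
            0 < p.1.1 * p.2 - p.1.2 * p.1.2} from fun h' => h ((posDef_two_iff_trace x y z).mpr h'))]
    rw [h6]
    have h7 : Measurable fun q : ℝ × ℝ => ∫⁻ z : ℝ,
        (indicator {p : (ℝ × ℝ) × ℝ | 0 < p.1.1 + p.2 ∧ 0 < p.1.1 * p.2 - p.1.2 * p.1.2}
        (fun p : (ℝ × ℝ) × ℝ => g !![p.1.1, p.1.2; p.1.2, p.2] * ENNReal.ofReal
          ((p.1.1 * p.2 - p.1.2 * p.1.2) ^ ((((m + 1 : ℕ) : ℝ) - 3) / 2)))) (q, z) :=
      h5.lintegral_prod_right'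
    exact h7.lintegral_prod_right'
  congr 1
  funext x
  by_cases hx : 0 < x
  · rw [indicator_of_mem (show x ∈ Ioi (0 : ℝ) from hx)]
    have e3 : ENNReal.ofReal (x ^ (((m + 1 : ℕ) : ℝ) / 2 - 1)) * (ENNReal.ofReal c1 *
        (ENNReal.ofReal (√x)⁻¹ * Psi (m + 1) G x))
        = ENNReal.ofReal c1 * (ENNReal.ofReal (x ^ ((((m + 1 : ℕ) : ℝ) - 3) / 2)) *
          Psi (m + 1) G x) := by
      have e4 : x ^ (((m + 1 : ℕ) : ℝ) / 2 - 1) * (√x)⁻¹ = x ^ ((((m + 1 : ℕ) : ℝ) - 3) / 2) := by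
        rw [Real.sqrt_eq_rpow, ← Real.rpow_neg hx.le, ← Real.rpow_add hx]
        congr 1
        ring
      rw [← e4, ENNReal.ofReal_mul (by positivity)]
      ring
    rw [e3]
    congr 1
    unfold Psi
    have hm8 : Measurable fun q : ℝ × ℝ => indicator (Ioi (q.1 ^ 2 / x)) (fun z =>
        ENNReal.ofReal ((z - q.1 ^ 2 / x) ^ ((((m + 1 : ℕ) : ℝ) - 3) / 2)) * G x q.1 z) q.2 := by
      have h5 : Measurable (indicator {p : ℝ × ℝ | p.1 ^ 2 / x < p.2} (fun p : ℝ × ℝ =>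
          ENNReal.ofReal ((p.2 - p.1 ^ 2 / x) ^ ((((m + 1 : ℕ) : ℝ) - 3) / 2)) *
            G x p.1 p.2)) := by
        refine Measurable.indicator ?_ (measurableSet_lt (by fun_prop) (by fun_prop))
        have h1 : Measurable fun p : ℝ × ℝ => (x, p.1, p.2) := by fun_prop
        exact (by fun_prop : Measurable fun p : ℝ × ℝ =>
          ENNReal.ofReal ((p.2 - p.1 ^ 2 / x) ^ ((((m + 1 : ℕ) : ℝ) - 3) / 2))).mul (hG.comp h1)
      exact h5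
    rw [← lintegral_const_mul _ hm8.lintegral_prod_right']
    congr 1
    funext y
    have hm9 : Measurable fun z : ℝ => indicator (Ioi (y ^ 2 / x)) (fun z =>
        ENNReal.ofReal ((z - y ^ 2 / x) ^ ((((m + 1 : ℕ) : ℝ) - 3) / 2)) * G x y z) z := by
      have h1 : Measurable fun z : ℝ => (y, z) := by fun_prop
      exact hm8.comp h1
    rw [← lintegral_const_mul _ hm9]
    congr 1
    funext z
    have hiff : y ^ 2 / x < z ↔ (!![x, y; y, z] : Matrix (Fin 2) (Fin 2) ℝ).PosDef := by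
      rw [posDef_two, div_lt_iff₀ hx]
      constructor
      · intro h
        exact ⟨hx, by nlinarith⟩
      · rintro ⟨-, h⟩
        nlinarith
    by_cases hz : y ^ 2 / x < z
    · rw [indicator_of_mem (show z ∈ Ioi (y ^ 2 / x) from hz), indicator_of_mem
        (show (!![x, y; y, z] : Matrix (Fin 2) (Fin 2) ℝ) ∈
          {Q : Matrix (Fin 2) (Fin 2) ℝ | Q.PosDef} from hiff.mp hz), Matrix.det_fin_two_of]
      have hz' : 0 < z - y ^ 2 / x := by linarith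
      have e5 : x * z - y * y = x * (z - y ^ 2 / x) := by
        field_simp
      rw [e5, Real.mul_rpow hx.le hz'.le, ENNReal.ofReal_mul (by positivity)]
      ring
    · rw [indicator_of_notMem (show z ∉ Ioi (y ^ 2 / x) from hz), indicator_of_notMem
        (show (!![x, y; y, z] : Matrix (Fin 2) (Fin 2) ℝ) ∉
          {Q : Matrix (Fin 2) (Fin 2) ℝ | Q.PosDef} from fun h => hz (hiff.mpr h)), mul_zero]
  · rw [indicator_of_notMem (show x ∉ Ioi (0 : ℝ) from hx)]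
    have h9 : ∀ y z : ℝ, Set.indicator {Q : Matrix (Fin 2) (Fin 2) ℝ | Q.PosDef}
        (fun Q => g Q * ENNReal.ofReal (Q.det ^ ((((m + 1 : ℕ) : ℝ) - 3) / 2)))
        !![x, y; y, z] = 0 := by
      intro y z
      rw [indicator_of_notMem]
      intro h
      exact hx ((posDef_two x y z).mp h).1
    simp only [h9, lintegral_zero, mul_zero]

end Pool.Agent.H30.TO
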