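import Pool.Agent.H30.TO.W2B

/-!
Module RE1 for MP_b4e73a_pr (helper84): change of variables to the real eigenvalues.
-/

open MeasureTheory Matrix Set
open scoped ENNReal
open Pool.Agent.H84.TO

namespace Pool.Agent.H30.TO

theorem measurable_ite_and {α : Type*} [MeasurableSpace α] {p q r s : α → ℝ} {F : α → ℝ≥0∞}
    (hp : Measurable p) (hq : Measurable q) (hr : Measurable r) (hs : Measurable s)
    (hF : Measurable F) : Measurable (fun x => if p x < q x ∧ r x < s x then F x else 0) :=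
  Measurable.ite ((measurableSet_lt hp hq).inter (measurableSet_lt hr hs)) hF measurable_const

theorem regroup (G : ℝ → ℝ → ℝ → ℝ → ℝ≥0∞)
    (hG : Measurable (fun p : (ℝ × ℝ) × (ℝ × ℝ) => G p.1.1 p.1.2 p.2.1 p.2.2)) :
    ∫⁻ p : (ℝ × ℝ) × (ℝ × ℝ), G p.1.1 p.1.2 p.2.1 p.2.2
      = ∫⁻ p : (ℝ × ℝ) × (ℝ × ℝ), G p.1.1 p.2.1 p.1.2 p.2.2 := by
  have hG2 : Measurable (fun p : (ℝ × ℝ) × (ℝ × ℝ) => G p.1.1 p.2.1 p.1.2 p.2.2) := by
    have h1 : Measurable (fun p : (ℝ × ℝ) × (ℝ × ℝ) => ((p.1.1, p.2.1), (p.1.2, p.2.2))) := by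
      fun_prop
    exact hG.comp h1
  have key : ∀ H : (ℝ × ℝ) × (ℝ × ℝ) → ℝ≥0∞, Measurable H →
      ∫⁻ p, H p = ∫⁻ a : ℝ, ∫⁻ b : ℝ, ∫⁻ c : ℝ, ∫⁻ d : ℝ, H ((a, b), (c, d)) := by
    intro H hH
    have h1 : Measurable fun x : ℝ × ℝ => ∫⁻ y : ℝ × ℝ, H (x, y) := hH.lintegral_prod_right'
    calc ∫⁻ p, H p = ∫⁻ x : ℝ × ℝ, ∫⁻ y : ℝ × ℝ, H (x, y) := lintegral_prod _ hH.aemeasurable
      _ = ∫⁻ a : ℝ, ∫⁻ b : ℝ, ∫⁻ y : ℝ × ℝ, H ((a, b), y) := lintegral_prod _ h1.aemeasurable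
      _ = ∫⁻ a : ℝ, ∫⁻ b : ℝ, ∫⁻ c : ℝ, ∫⁻ d : ℝ, H ((a, b), (c, d)) := by
        congr 1
        funext a
        congr 1
        funext b
        have h2 : Measurable fun y : ℝ × ℝ => H ((a, b), y) := hH.comp (by fun_prop)
        exact lintegral_prod _ h2.aemeasurable
  rw [key _ hG, key _ hG2]
  congr 1
  funext a
  simp only
  rw [lintegral_lintegral_swap]
  have h3 : Measurable fun z : (ℝ × ℝ) × ℝ => G a z.1.1 z.1.2 z.2 := by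
    have h1 : Measurable (fun z : (ℝ × ℝ) × ℝ => ((a, z.1.1), (z.1.2, z.2))) := by fun_prop
    exact hG.comp h1
  exact (h3.lintegral_prod_right').aemeasurable

theorem swap_last (G : ℝ → ℝ → ℝ → ℝ → ℝ≥0∞)
    (hG : Measurable (fun p : (ℝ × ℝ) × (ℝ × ℝ) => G p.1.1 p.1.2 p.2.1 p.2.2)) :
    ∫⁻ p : (ℝ × ℝ) × (ℝ × ℝ), G p.1.1 p.1.2 p.2.1 p.2.2
      = ∫⁻ p : (ℝ × ℝ) × (ℝ × ℝ), G p.1.1 p.1.2 p.2.2 p.2.1 := by
  have hG2 : Measurable (fun p : (ℝ × ℝ) × (ℝ × ℝ) => G p.1.1 p.1.2 p.2.2 p.2.1) := by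
    have h1 : Measurable (fun p : (ℝ × ℝ) × (ℝ × ℝ) => ((p.1.1, p.1.2), (p.2.2, p.2.1))) := by
      fun_prop
    exact hG.comp h1
  rw [Measure.volume_eq_prod, lintegral_prod _ hG.aemeasurable, lintegral_prod _ hG2.aemeasurable]
  congr 1
  funext x
  have h2 := lintegral_prod_swap (μ := (volume : Measure ℝ)) (ν := (volume : Measure ℝ))
    (fun y : ℝ × ℝ => G x.1 x.2 y.2 y.1)
  rw [← Measure.volume_eq_prod] at h2
  exact h2

/-- linear change in both planes -/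
theorem lin_both (G : ℝ → ℝ → ℝ → ℝ → ℝ≥0∞)
    (hG : Measurable (fun p : (ℝ × ℝ) × (ℝ × ℝ) => G p.1.1 p.1.2 p.2.1 p.2.2)) :
    ∫⁻ p : (ℝ × ℝ) × (ℝ × ℝ), G p.1.1 p.1.2 p.2.1 p.2.2
      = 4 * ∫⁻ p : (ℝ × ℝ) × (ℝ × ℝ), G (p.1.1 + p.1.2) (p.1.1 - p.1.2) (-p.2.1 + p.2.2)
        (p.2.1 + p.2.2) := by
  have hG2 : Measurable (fun p : (ℝ × ℝ) × (ℝ × ℝ) => G (p.1.1 + p.1.2) (p.1.1 - p.1.2)
      (-p.2.1 + p.2.2) (p.2.1 + p.2.2)) := by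
    have h1 : Measurable (fun p : (ℝ × ℝ) × (ℝ × ℝ) => ((p.1.1 + p.1.2, p.1.1 - p.1.2),
      (-p.2.1 + p.2.2, p.2.1 + p.2.2))) := by
      fun_prop
    exact hG.comp h1
  rw [Measure.volume_eq_prod, lintegral_prod _ hG.aemeasurable, lintegral_prod _ hG2.aemeasurable]
  have h1 : ∀ x : ℝ × ℝ, ∫⁻ y : ℝ × ℝ, G x.1 x.2 y.1 y.2
      = 2 * ∫⁻ y : ℝ × ℝ, G x.1 x.2 (-y.1 + y.2) (y.1 + y.2) := by
    intro x
    have hm : Measurable fun y : ℝ × ℝ => G x.1 x.2 y.1 y.2 := by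
      have h1 : Measurable (fun y : ℝ × ℝ => (x, y)) := by fun_prop
      exact hG.comp h1
    have h2 := lin2 (-1) 1 1 1 (by norm_num) (fun y : ℝ × ℝ => G x.1 x.2 y.1 y.2) hm
    simp only [neg_mul, one_mul] at h2
    rw [h2, ← mul_assoc]
    have h3 : (2 : ℝ≥0∞) = ENNReal.ofReal 2 := by norm_num
    rw [h3, ← ENNReal.ofReal_mul (by norm_num)]
    norm_num
  simp only [h1]
  have hm2 : Measurable fun x : ℝ × ℝ => ∫⁻ y : ℝ × ℝ, G x.1 x.2 (-y.1 + y.2) (y.1 + y.2) := by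
    have h2 : Measurable fun p : (ℝ × ℝ) × (ℝ × ℝ) => G p.1.1 p.1.2 (-p.2.1 + p.2.2)
        (p.2.1 + p.2.2) := by
      have h1 : Measurable (fun p : (ℝ × ℝ) × (ℝ × ℝ) => ((p.1.1, p.1.2),
        (-p.2.1 + p.2.2, p.2.1 + p.2.2))) := by
        fun_prop
      exact hG.comp h1
    exact h2.lintegral_prod_right'
  rw [lintegral_const_mul _ hm2]
  have h4 := lin2 1 1 1 (-1) (by norm_num) (fun x : ℝ × ℝ => ∫⁻ y : ℝ × ℝ, G x.1 x.2 (-y.1 + y.2)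
    (y.1 + y.2)) hm2
  simp only [neg_mul, one_mul, ← sub_eq_add_neg] at h4
  rw [h4]
  have h5 : (4 : ℝ≥0∞) = ENNReal.ofReal 4 := by norm_num
  have h6 : (2 : ℝ≥0∞) = ENNReal.ofReal 2 := by norm_num
  rw [h5, h6, ← mul_assoc, ← ENNReal.ofReal_mul (by norm_num)]
  norm_num

/-- the integrand in terms of the entries `b00, b11, b01, b10` -/
noncomputable def G0 (ℓ : ℕ) (f : ℝ → ℝ → ℝ≥0∞) (a d b c : ℝ) : ℝ≥0∞ :=
  if 0 < (a + d) ^ 2 - 4 * (a * d - b * c) ∧ a ^ 2 + b ^ 2 + c ^ 2 + d ^ 2 < 2 then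
    f ((a + d - √((a + d) ^ 2 - 4 * (a * d - b * c))) / 2)
      ((a + d + √((a + d) ^ 2 - 4 * (a * d - b * c))) / 2) *
      pw ℓ (1 - (a ^ 2 + b ^ 2 + c ^ 2 + d ^ 2) + (a * d - b * c) ^ 2) else 0

theorem measurable_G0 (ℓ : ℕ) {f : ℝ → ℝ → ℝ≥0∞} (hf : Measurable (Function.uncurry f)) :
    Measurable (fun p : (ℝ × ℝ) × (ℝ × ℝ) => G0 ℓ f p.1.1 p.1.2 p.2.1 p.2.2) := by
  unfold G0
  refine measurable_ite_and (by fun_prop) (by fun_prop) (by fun_prop) (by fun_prop) ?_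
  refine Measurable.mul ?_ ((measurable_pw ℓ).comp (by fun_prop))
  have h1 : Measurable fun p : (ℝ × ℝ) × (ℝ × ℝ) =>
      ((p.1.1 + p.1.2 - √((p.1.1 + p.1.2) ^ 2 - 4 * (p.1.1 * p.1.2 - p.2.1 * p.2.2))) / 2,
      (p.1.1 + p.1.2 + √((p.1.1 + p.1.2) ^ 2 - 4 * (p.1.1 * p.1.2 - p.2.1 * p.2.2))) / 2) := by
    fun_prop
  exact hf.comp h1

theorem indicator_eq_G0 (ℓ : ℕ) (f : ℝ → ℝ → ℝ≥0∞) (a b c d : ℝ) :
    indicator (Bal ∩ {B | 0 < B.trace ^ 2 - 4 * B.det}) (fun B : Matrix (Fin 2) (Fin 2) ℝ =>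
      f ((B.trace - Real.sqrt (B.trace ^ 2 - 4 * B.det)) / 2)
        ((B.trace + Real.sqrt (B.trace ^ 2 - 4 * B.det)) / 2) * ENNReal.ofReal (dn ℓ B))
      !![a, b; c, d] = G0 ℓ f a d b c := by
  have htr : (!![a, b; c, d] : Matrix (Fin 2) (Fin 2) ℝ).trace = a + d := by
    rw [Matrix.trace_fin_two_of]
  have hdet : (!![a, b; c, d] : Matrix (Fin 2) (Fin 2) ℝ).det = a * d - b * c := by
    rw [Matrix.det_fin_two_of]
  unfold G0 pw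
  by_cases h : (!![a, b; c, d] : Matrix (Fin 2) (Fin 2) ℝ) ∈
      Bal ∩ {B | 0 < B.trace ^ 2 - 4 * B.det}
  · rw [indicator_of_mem h]
    obtain ⟨h1, h2⟩ := h
    rw [mem_Bal] at h1
    rw [mem_ofPred_eq, htr, hdet] at h2
    rw [if_pos ⟨h2, h1.1⟩, if_pos h1.2, htr, hdet, dn_eq]
  · rw [indicator_of_notMem h]
    by_cases h1 : 0 < (a + d) ^ 2 - 4 * (a * d - b * c) ∧ a ^ 2 + b ^ 2 + c ^ 2 + d ^ 2 < 2
    · rw [if_pos h1]
      by_cases h2 : 0 < 1 - (a ^ 2 + b ^ 2 + c ^ 2 + d ^ 2) + (a * d - b * c) ^ 2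
      · exfalso
        apply h
        refine ⟨?_, ?_⟩
        · rw [mem_Bal]
          exact ⟨h1.2, h2⟩
        · rw [mem_ofPred_eq, htr, hdet]
          exact h1.1
      · rw [if_neg h2, mul_zero]
    · rw [if_neg h1]

/-- after the linear changes, `ρ = u² + v²` -/
noncomputable def G1 (ℓ : ℕ) (f : ℝ → ℝ → ℝ≥0∞) (x y ρ : ℝ) : ℝ≥0∞ :=
  if y ^ 2 < ρ ∧ x ^ 2 + y ^ 2 + ρ < 1 then
    f (x - √(ρ - y ^ 2)) (x + √(ρ - y ^ 2)) *
      pw ℓ (1 - 2 * (x ^ 2 + y ^ 2 + ρ) + (x ^ 2 + y ^ 2 - ρ) ^ 2) else 0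

theorem measurable_G1 (ℓ : ℕ) {f : ℝ → ℝ → ℝ≥0∞} (hf : Measurable (Function.uncurry f)) :
    Measurable (fun p : (ℝ × ℝ) × ℝ => G1 ℓ f p.1.1 p.1.2 p.2) := by
  unfold G1
  refine measurable_ite_and (by fun_prop) (by fun_prop) (by fun_prop) (by fun_prop) ?_
  refine Measurable.mul ?_ ((measurable_pw ℓ).comp (by fun_prop))
  have h1 : Measurable fun p : (ℝ × ℝ) × ℝ =>
      (p.1.1 - √(p.2 - p.1.2 ^ 2), p.1.1 + √(p.2 - p.1.2 ^ 2)) := by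
    fun_prop
  exact hf.comp h1

theorem G0_eq (ℓ : ℕ) (f : ℝ → ℝ → ℝ≥0∞) (x u y v : ℝ) :
    G0 ℓ f (x + u) (x - u) (-y + v) (y + v) = G1 ℓ f x y (u ^ 2 + v ^ 2) := by
  unfold G0 G1
  have e1 : (x + u + (x - u)) ^ 2 - 4 * ((x + u) * (x - u) - (-y + v) * (y + v))
      = 2 ^ 2 * (u ^ 2 + v ^ 2 - y ^ 2) := by ring
  have e2 : (x + u) ^ 2 + (-y + v) ^ 2 + (y + v) ^ 2 + (x - u) ^ 2
      = 2 * (x ^ 2 + y ^ 2 + (u ^ 2 + v ^ 2)) := by ring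
  have e3 : (x + u) * (x - u) - (-y + v) * (y + v) = x ^ 2 + y ^ 2 - (u ^ 2 + v ^ 2) := by ring
  rw [e1, e2, e3]
  have e4 : √(2 ^ 2 * (u ^ 2 + v ^ 2 - y ^ 2)) = 2 * √(u ^ 2 + v ^ 2 - y ^ 2) := by
    rw [Real.sqrt_mul (by norm_num), Real.sqrt_sq (by norm_num)]
  rw [e4]
  have e5 : (x + u + (x - u) - 2 * √(u ^ 2 + v ^ 2 - y ^ 2)) / 2
      = x - √(u ^ 2 + v ^ 2 - y ^ 2) := by ring
  have e6 : (x + u + (x - u) + 2 * √(u ^ 2 + v ^ 2 - y ^ 2)) / 2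
      = x + √(u ^ 2 + v ^ 2 - y ^ 2) := by ring
  rw [e5, e6]
  by_cases h : y ^ 2 < u ^ 2 + v ^ 2 ∧ x ^ 2 + y ^ 2 + (u ^ 2 + v ^ 2) < 1
  · rw [if_pos h, if_pos ⟨by linarith [h.1], by linarith [h.2]⟩]
  · rw [if_neg h, if_neg]
    rintro ⟨h1, h2⟩
    exact h ⟨by linarith, by linarith⟩

/-- the integrand in `(x, m)` -/
noncomputable def G2 (ℓ : ℕ) (f : ℝ → ℝ → ℝ≥0∞) (x m y : ℝ) : ℝ≥0∞ :=
  if 0 < m ∧ x ^ 2 + 2 * y ^ 2 + m ^ 2 < 1 then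
    ENNReal.ofReal (2 * m) * f (x - m) (x + m) *
      pw ℓ ((1 - (x - m) ^ 2) * (1 - (x + m) ^ 2) - (2 * y) ^ 2) else 0

theorem measurable_G2 (ℓ : ℕ) {f : ℝ → ℝ → ℝ≥0∞} (hf : Measurable (Function.uncurry f)) :
    Measurable (fun p : (ℝ × ℝ) × ℝ => G2 ℓ f p.1.1 p.1.2 p.2) := by
  unfold G2
  refine measurable_ite_and (by fun_prop) (by fun_prop) (by fun_prop) (by fun_prop) ?_
  have h1 : Measurable fun p : (ℝ × ℝ) × ℝ => (p.1.1 - p.1.2, p.1.1 + p.1.2) := by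
    fun_prop
  exact ((by fun_prop : Measurable fun p : (ℝ × ℝ) × ℝ => ENNReal.ofReal (2 * p.1.2)).mul
    (hf.comp h1)).mul ((measurable_pw ℓ).comp (by fun_prop))

theorem rho_eq (ℓ : ℕ) {f : ℝ → ℝ → ℝ≥0∞} (x y : ℝ) :
    ∫⁻ ρ in Ioi (0 : ℝ), G1 ℓ f x y ρ = ∫⁻ m : ℝ, G2 ℓ f x m y := by
  have h1 : ∫⁻ ρ in Ioi (0 : ℝ), G1 ℓ f x y ρ = ∫⁻ r in Ioi (0 : ℝ), G1 ℓ f x y (y ^ 2 + r) := by
    rw [← lintegral_indicator measurableSet_Ioi, ← lintegral_indicator measurableSet_Ioi,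
      ← lintegral_add_left_eq_self (μ := volume)
        (fun ρ => indicator (Ioi (0 : ℝ)) (fun ρ => G1 ℓ f x y ρ) ρ) (y ^ 2)]
    congr 1
    funext r
    by_cases hr : 0 < r
    · rw [indicator_of_mem (show r ∈ Ioi (0 : ℝ) from hr),
        indicator_of_mem (show y ^ 2 + r ∈ Ioi (0 : ℝ) from by
          have := sq_nonneg y
          change 0 < y ^ 2 + r
          linarith)]
    · rw [indicator_of_notMem (show r ∉ Ioi (0 : ℝ) from hr)]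
      by_cases h2 : y ^ 2 + r ∈ Ioi (0 : ℝ)
      · rw [indicator_of_mem h2]
        unfold G1
        rw [if_neg]
        rintro ⟨h3, -⟩
        apply hr
        linarith
      · rw [indicator_of_notMem h2]
  rw [h1, subst_sq, ← lintegral_indicator measurableSet_Ioi]
  congr 1
  funext m
  unfold G2 G1
  by_cases hm : 0 < m
  · rw [indicator_of_mem (show m ∈ Ioi (0 : ℝ) from hm)]
    have e1 : y ^ 2 + m ^ 2 - y ^ 2 = m ^ 2 := by ring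
    rw [e1, Real.sqrt_sq hm.le]
    by_cases h2 : x ^ 2 + 2 * y ^ 2 + m ^ 2 < 1
    · rw [if_pos (show 0 < m ∧ x ^ 2 + 2 * y ^ 2 + m ^ 2 < 1 from ⟨hm, h2⟩),
        if_pos (show y ^ 2 < y ^ 2 + m ^ 2 ∧ x ^ 2 + y ^ 2 + (y ^ 2 + m ^ 2) < 1 from
          ⟨by nlinarith, by linarith⟩)]
      rw [mul_assoc]
      congr 3
      ring
    · rw [if_neg (show ¬ (0 < m ∧ x ^ 2 + 2 * y ^ 2 + m ^ 2 < 1) from fun h => h2 h.2),
        if_neg (show ¬ (y ^ 2 < y ^ 2 + m ^ 2 ∧ x ^ 2 + y ^ 2 + (y ^ 2 + m ^ 2) < 1) from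
          fun h => h2 (by linarith [h.2])), mul_zero]
  · rw [indicator_of_notMem (show m ∉ Ioi (0 : ℝ) from hm), if_neg (fun h => hm h.1)]

/-- the integrand in the eigenvalues -/
noncomputable def G3 (ℓ : ℕ) (f : ℝ → ℝ → ℝ≥0∞) (a b y : ℝ) : ℝ≥0∞ :=
  if a < b ∧ (a ^ 2 + b ^ 2) / 2 + 2 * y ^ 2 < 1 then
    ENNReal.ofReal (b - a) * f a b * pw ℓ ((1 - a ^ 2) * (1 - b ^ 2) - (2 * y) ^ 2) else 0

theorem measurable_G3 (ℓ : ℕ) {f : ℝ → ℝ → ℝ≥0∞} (hf : Measurable (Function.uncurry f)) :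
    Measurable (fun p : (ℝ × ℝ) × ℝ => G3 ℓ f p.1.1 p.1.2 p.2) := by
  unfold G3
  refine measurable_ite_and (by fun_prop) (by fun_prop) (by fun_prop) (by fun_prop) ?_
  exact ((by fun_prop : Measurable fun p : (ℝ × ℝ) × ℝ => ENNReal.ofReal (p.1.2 - p.1.1)).mul
    (hf.comp measurable_fst)).mul ((measurable_pw ℓ).comp (by fun_prop))

theorem G2_eq (ℓ : ℕ) (f : ℝ → ℝ → ℝ≥0∞) (x m y : ℝ) :
    G2 ℓ f x m y = G3 ℓ f (x - m) (x + m) y := by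
  unfold G2 G3
  by_cases h : 0 < m ∧ x ^ 2 + 2 * y ^ 2 + m ^ 2 < 1
  · rw [if_pos h, if_pos ⟨by linarith [h.1], by nlinarith [h.2]⟩]
    congr 3
    ring
  · rw [if_neg h, if_neg]
    rintro ⟨h1, h2⟩
    exact h ⟨by linarith, by nlinarith⟩

theorem y_int (hB : T_BET) (ℓ : ℕ) (hl : 2 ≤ ℓ) (f : ℝ → ℝ → ℝ≥0∞) (a b : ℝ) :
    ∫⁻ y : ℝ, G3 ℓ f a b y = indicator (Ioo (-1 : ℝ) 1) (fun a => indicator (Ioo a 1) (fun b =>
      ENNReal.ofReal (2⁻¹ * bt (1 / 2) (((ℓ : ℝ) - 1) / 2)) * (f a b *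
        ENNReal.ofReal ((b - a) * ((1 - a ^ 2) ^ ((ℓ : ℝ) / 2 - 1) *
          (1 - b ^ 2) ^ ((ℓ : ℝ) / 2 - 1))))) b) a := by
  by_cases hab : a ∈ Ioo (-1 : ℝ) 1 ∧ b ∈ Ioo a 1
  · obtain ⟨ha, hb⟩ := hab
    rw [indicator_of_mem ha, indicator_of_mem hb]
    have h1 : 0 < 1 - a ^ 2 := by nlinarith [ha.1, ha.2]
    have hb1 : -1 < b := ha.1.trans hb.1
    have h2 : 0 < 1 - b ^ 2 := by nlinarith [hb.1, hb.2]
    have h3 : ∀ y, G3 ℓ f a b y = ENNReal.ofReal (b - a) * f a b *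
        pw ℓ ((1 - a ^ 2) * (1 - b ^ 2) - (2 * y) ^ 2) := by
      intro y
      unfold G3
      by_cases hD : 0 < (1 - a ^ 2) * (1 - b ^ 2) - (2 * y) ^ 2
      · rw [if_pos]
        refine ⟨hb.1, ?_⟩
        have h4 : a ^ 2 * b ^ 2 < 1 := by nlinarith [sq_nonneg a, sq_nonneg b]
        nlinarith
      · have h4 : pw ℓ ((1 - a ^ 2) * (1 - b ^ 2) - (2 * y) ^ 2) = 0 := by
          unfold pw
          rw [if_neg hD]
        rw [h4, mul_zero]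
        split_ifs <;> rfl
    simp only [h3]
    have hm : Measurable fun y : ℝ => pw ℓ ((1 - a ^ 2) * (1 - b ^ 2) - (2 * y) ^ 2) :=
      (measurable_pw ℓ).comp (by fun_prop)
    rw [lintegral_const_mul _ hm, beta_pw_scale hB ℓ hl 2 two_pos _ (mul_pos h1 h2),
      Real.mul_rpow h1.le h2.le]
    have hba : 0 < b - a := by linarith [hb.1]
    have hbt : 0 ≤ bt (1 / 2) (((ℓ : ℝ) - 1) / 2) := by
      have hl2 : (2 : ℝ) ≤ ℓ := by exact_mod_cast hl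
      unfold bt
      have g1 := Real.Gamma_pos_of_pos (show (0 : ℝ) < 1 / 2 by norm_num)
      have g2 := Real.Gamma_pos_of_pos (show (0 : ℝ) < ((ℓ : ℝ) - 1) / 2 by linarith)
      have g3 := Real.Gamma_pos_of_pos (show (0 : ℝ) < 1 / 2 + ((ℓ : ℝ) - 1) / 2 by linarith)
      positivity
    rw [ENNReal.ofReal_mul (p := b - a) hba.le, ENNReal.ofReal_mul (p := 2⁻¹) (by norm_num)]
    have e1 : ENNReal.ofReal (2⁻¹ * ((1 - a ^ 2) ^ ((ℓ : ℝ) / 2 - 1) *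
        (1 - b ^ 2) ^ ((ℓ : ℝ) / 2 - 1)) * bt (1 / 2) (((ℓ : ℝ) - 1) / 2))
        = ENNReal.ofReal 2⁻¹ * ENNReal.ofReal ((1 - a ^ 2) ^ ((ℓ : ℝ) / 2 - 1) *
        (1 - b ^ 2) ^ ((ℓ : ℝ) / 2 - 1)) * ENNReal.ofReal (bt (1 / 2) (((ℓ : ℝ) - 1) / 2)) := by
      rw [ENNReal.ofReal_mul (by positivity), ENNReal.ofReal_mul (by norm_num)]
    rw [e1]
    ring
  · have h3 : ∀ y, G3 ℓ f a b y = 0 := by
      intro y
      unfold G3
      by_cases h1 : a < b ∧ (a ^ 2 + b ^ 2) / 2 + 2 * y ^ 2 < 1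
      · rw [if_pos h1]
        have h4 : pw ℓ ((1 - a ^ 2) * (1 - b ^ 2) - (2 * y) ^ 2) = 0 := by
          unfold pw
          rw [if_neg]
          intro hD
          apply hab
          have h5 : 0 < (1 - a ^ 2) * (1 - b ^ 2) := by nlinarith [sq_nonneg y]
          have h6 : a ^ 2 < 1 := by
            by_contra h7
            rw [not_lt] at h7
            have h8 : 1 - b ^ 2 ≤ 0 := by
              by_contra h9
              rw [not_le] at h9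
              nlinarith
            nlinarith [sq_nonneg y, h1.2]
          have h7 : b ^ 2 < 1 := by
            have : 0 < 1 - b ^ 2 := (pos_iff_pos_of_mul_pos h5).mp (by linarith)
            linarith
          have h8 := abs_lt.mp ((sq_lt_one_iff_abs_lt_one a).mp h6)
          have h9 := abs_lt.mp ((sq_lt_one_iff_abs_lt_one b).mp h7)
          exact ⟨h8, h1.1, h9.2⟩
        rw [h4, mul_zero]
      · rw [if_neg h1]
    simp only [h3, lintegral_zero]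
    by_cases ha : a ∈ Ioo (-1 : ℝ) 1
    · rw [indicator_of_mem ha, indicator_of_notMem (fun hb => hab ⟨ha, hb⟩)]
    · rw [indicator_of_notMem ha]

theorem re1 (hB : T_BET) : T_RE1 := by
  intro ℓ hl f hf
  have hmS : MeasurableSet (Bal ∩ {B : Matrix (Fin 2) (Fin 2) ℝ | 0 < B.trace ^ 2 - 4 * B.det}) := by
    refine measurableSet_Bal.inter (measurableSet_lt measurable_const ?_)
    have hm : ∀ i j : Fin 2, Measurable fun B : Matrix (Fin 2) (Fin 2) ℝ => B i j := fun i j =>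
      (measurable_pi_apply j).comp (measurable_pi_apply (X := fun _ : Fin 2 => Fin 2 → ℝ) i)
    have e1 : (fun B : Matrix (Fin 2) (Fin 2) ℝ => B.trace ^ 2 - 4 * B.det) = fun B =>
        (B 0 0 + B 1 1) ^ 2 - 4 * (B 0 0 * B 1 1 - B 0 1 * B 1 0) := by
      funext B
      rw [Matrix.trace_fin_two, Matrix.det_fin_two]
    rw [e1]
    exact (((hm 0 0).add (hm 1 1)).pow_const 2).sub
      ((((hm 0 0).mul (hm 1 1)).sub ((hm 0 1).mul (hm 1 0))).const_mul 4)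
  rw [← lintegral_indicator hmS, mat22]
  simp only [indicator_eq_G0]
  -- group the entries
  have hm0 := measurable_G0 ℓ hf
  have hmA : Measurable (fun p : (ℝ × ℝ) × (ℝ × ℝ) => G0 ℓ f p.1.1 p.2.2 p.1.2 p.2.1) := by
    have h1 : Measurable (fun p : (ℝ × ℝ) × (ℝ × ℝ) => ((p.1.1, p.2.2), (p.1.2, p.2.1))) := by
      fun_prop
    exact hm0.comp h1
  have hmB : Measurable (fun p : (ℝ × ℝ) × (ℝ × ℝ) => G0 ℓ f p.1.1 p.2.1 p.1.2 p.2.2) := by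
    have h1 : Measurable (fun p : (ℝ × ℝ) × (ℝ × ℝ) => ((p.1.1, p.2.1), (p.1.2, p.2.2))) := by
      fun_prop
    exact hm0.comp h1
  rw [swap_last (fun a b c d => G0 ℓ f a d b c) hmA]
  rw [regroup (fun a b c d => G0 ℓ f a c b d) hmB]
  rw [lin_both (fun a b c d => G0 ℓ f a b c d) hm0]
  simp only [G0_eq]
  -- polar coordinates
  have hm1 := measurable_G1 ℓ hf
  have hmC : Measurable (fun p : (ℝ × ℝ) × (ℝ × ℝ) => G1 ℓ f p.1.1 p.2.1 (p.1.2 ^ 2 + p.2.2 ^ 2)) := by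
    have h1 : Measurable (fun p : (ℝ × ℝ) × (ℝ × ℝ) => ((p.1.1, p.2.1), p.1.2 ^ 2 + p.2.2 ^ 2)) := by
      fun_prop
    exact hm1.comp h1
  rw [regroup (fun a b c d => G1 ℓ f a c (b ^ 2 + d ^ 2)) hmC]
  have hmD : Measurable (fun p : (ℝ × ℝ) × (ℝ × ℝ) => G1 ℓ f p.1.1 p.1.2 (p.2.1 ^ 2 + p.2.2 ^ 2)) := by
    have h1 : Measurable (fun p : (ℝ × ℝ) × (ℝ × ℝ) => ((p.1.1, p.1.2), p.2.1 ^ 2 + p.2.2 ^ 2)) := by
      fun_prop
    exact hm1.comp h1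
  rw [Measure.volume_eq_prod, lintegral_prod _ hmD.aemeasurable]
  simp only
  have h2 : ∀ x : ℝ × ℝ, ∫⁻ y : ℝ × ℝ, G1 ℓ f x.1 x.2 (y.1 ^ 2 + y.2 ^ 2)
      = ENNReal.ofReal Real.pi * ∫⁻ m : ℝ, G2 ℓ f x.1 m x.2 := by
    intro x
    have hmE : Measurable fun ρ : ℝ => G1 ℓ f x.1 x.2 ρ := by
      have h1 : Measurable (fun ρ : ℝ => (x, ρ)) := by fun_prop
      exact hm1.comp h1
    rw [polar2 _ hmE, rho_eq]
  simp only [h2]
  have hm2 := measurable_G2 ℓ hf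
  have hmF : Measurable fun z : (ℝ × ℝ) × ℝ => G2 ℓ f z.1.1 z.2 z.1.2 := by
    have h1 : Measurable (fun z : (ℝ × ℝ) × ℝ => ((z.1.1, z.2), z.1.2)) := by fun_prop
    exact hm2.comp h1
  have hmG : Measurable fun x : ℝ × ℝ => ∫⁻ m : ℝ, G2 ℓ f x.1 m x.2 := hmF.lintegral_prod_right'
  rw [lintegral_const_mul _ hmG]
  have h3 : ∫⁻ x : ℝ × ℝ, ∫⁻ m : ℝ, G2 ℓ f x.1 m x.2 = ∫⁻ q : ℝ × ℝ, ∫⁻ y : ℝ, G2 ℓ f q.1 q.2 y := by
    have hmH : Measurable fun q : ℝ × ℝ => ∫⁻ y : ℝ, G2 ℓ f q.1 q.2 y := hm2.lintegral_prod_right'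
    rw [Measure.volume_eq_prod, lintegral_prod _ hmG.aemeasurable, lintegral_prod _ hmH.aemeasurable]
    congr 1
    funext x
    simp only
    rw [lintegral_lintegral_swap]
    have h1 : Measurable (fun z : ℝ × ℝ => ((x, z.2), z.1)) := by fun_prop
    exact (hm2.comp h1).aemeasurable
  rw [h3]
  simp only [G2_eq]
  have hm3 := measurable_G3 ℓ hf
  have hmI : Measurable fun q : ℝ × ℝ => ∫⁻ y : ℝ, G3 ℓ f q.1 q.2 y := hm3.lintegral_prod_right'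
  have h4 := lin2 1 (-1) 1 1 (by norm_num) (fun q : ℝ × ℝ => ∫⁻ y : ℝ, G3 ℓ f q.1 q.2 y) hmI
  simp only [one_mul, neg_mul, ← sub_eq_add_neg] at h4
  rw [h4]
  rw [Measure.volume_eq_prod, lintegral_prod _ hmI.aemeasurable]
  simp only [y_int hB ℓ hl f]
  have h5 : ∀ a : ℝ, ∫⁻ b : ℝ, indicator (Ioo (-1 : ℝ) 1) (fun a => indicator (Ioo a 1) (fun b =>
      ENNReal.ofReal (2⁻¹ * bt (1 / 2) (((ℓ : ℝ) - 1) / 2)) * (f a b *
        ENNReal.ofReal ((b - a) * ((1 - a ^ 2) ^ ((ℓ : ℝ) / 2 - 1) *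
          (1 - b ^ 2) ^ ((ℓ : ℝ) / 2 - 1))))) b) a
      = indicator (Ioo (-1 : ℝ) 1) (fun a => ENNReal.ofReal (2⁻¹ * bt (1 / 2) (((ℓ : ℝ) - 1) / 2)) *
        ∫⁻ b in Ioo a 1, f a b * ENNReal.ofReal ((b - a) * ((1 - a ^ 2) ^ ((ℓ : ℝ) / 2 - 1) *
          (1 - b ^ 2) ^ ((ℓ : ℝ) / 2 - 1)))) a := by
    intro a
    by_cases ha : a ∈ Ioo (-1 : ℝ) 1
    · simp only [indicator_of_mem ha]
      rw [lintegral_indicator measurableSet_Ioo, lintegral_const_mul]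
      have : Measurable fun b : ℝ => f a b := by
        have h1 : Measurable (fun b : ℝ => (a, b)) := by fun_prop
        exact hf.comp h1
      fun_prop
    · simp only [indicator_of_notMem ha, lintegral_zero]
  simp only [h5]
  rw [lintegral_indicator measurableSet_Ioo]
  have hmJ : Measurable fun a : ℝ => ∫⁻ b in Ioo a 1, f a b * ENNReal.ofReal ((b - a) *
      ((1 - a ^ 2) ^ ((ℓ : ℝ) / 2 - 1) * (1 - b ^ 2) ^ ((ℓ : ℝ) / 2 - 1))) := by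
    have h6 : ∀ a : ℝ, ∫⁻ b in Ioo a 1, f a b * ENNReal.ofReal ((b - a) *
        ((1 - a ^ 2) ^ ((ℓ : ℝ) / 2 - 1) * (1 - b ^ 2) ^ ((ℓ : ℝ) / 2 - 1)))
        = ∫⁻ b, indicator {z : ℝ × ℝ | z.1 < z.2 ∧ z.2 < 1} (fun z : ℝ × ℝ => f z.1 z.2 *
          ENNReal.ofReal ((z.2 - z.1) *
        ((1 - z.1 ^ 2) ^ ((ℓ : ℝ) / 2 - 1) * (1 - z.2 ^ 2) ^ ((ℓ : ℝ) / 2 - 1)))) (a, b) := by
      intro a
      rw [← lintegral_indicator measurableSet_Ioo]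
      rfl
    simp only [h6]
    have h7 : Measurable (indicator {z : ℝ × ℝ | z.1 < z.2 ∧ z.2 < 1} (fun z : ℝ × ℝ => f z.1 z.2 *
          ENNReal.ofReal ((z.2 - z.1) *
        ((1 - z.1 ^ 2) ^ ((ℓ : ℝ) / 2 - 1) * (1 - z.2 ^ 2) ^ ((ℓ : ℝ) / 2 - 1))))) := by
      refine Measurable.indicator ?_ (MeasurableSet.inter (measurableSet_lt measurable_fst
        measurable_snd) (measurableSet_lt measurable_snd measurable_const))
      have : Measurable fun z : ℝ × ℝ => f z.1 z.2 := hf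
      fun_prop
    exact h7.lintegral_prod_right'
  rw [lintegral_const_mul _ hmJ]
  have h8 : (4 : ℝ≥0∞) = ENNReal.ofReal 4 := by norm_num
  have hbt : 0 ≤ bt (1 / 2) (((ℓ : ℝ) - 1) / 2) := by
    have hl2 : (2 : ℝ) ≤ ℓ := by exact_mod_cast hl
    unfold bt
    have g1 := Real.Gamma_pos_of_pos (show (0 : ℝ) < 1 / 2 by norm_num)
    have g2 := Real.Gamma_pos_of_pos (show (0 : ℝ) < ((ℓ : ℝ) - 1) / 2 by linarith)
    have g3 := Real.Gamma_pos_of_pos (show (0 : ℝ) < 1 / 2 + ((ℓ : ℝ) - 1) / 2 by linarith)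
    positivity
  rw [h8, ← mul_assoc, ← mul_assoc, ← mul_assoc, ← ENNReal.ofReal_mul (by norm_num),
    ← ENNReal.ofReal_mul (by positivity), ← ENNReal.ofReal_mul (by positivity)]
  congr 2
  norm_num
  ring

end Pool.Agent.H30.TO
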