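import Pool.Agent.H84.TO.TargetsR

/-!
Tools for MP_b4e73a_pr (helper84): lower integrals in the plane and over 2x2 matrices.
-/

open MeasureTheory Matrix Set
open scoped ENNReal
open Pool.Agent.H84.TO

namespace Pool.Agent.H30.TO

/-- linear change of variables in the plane -/
theorem lin2 (a b c d : ℝ) (h : a * d - b * c ≠ 0) (f : ℝ × ℝ → ℝ≥0∞) (hf : Measurable f) :
    ∫⁻ q : ℝ × ℝ, f (a * q.1 + b * q.2, c * q.1 + d * q.2)
      = ENNReal.ofReal |(a * d - b * c)⁻¹| * ∫⁻ q, f q := by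
  set L : ℝ × ℝ →ₗ[ℝ] ℝ × ℝ := Matrix.toLin (Module.Basis.finTwoProd ℝ) (Module.Basis.finTwoProd ℝ)
    !![a, b; c, d] with hL
  have hdet : LinearMap.det L = a * d - b * c := by
    rw [hL, LinearMap.det_toLin, Matrix.det_fin_two_of]
  have hne : LinearMap.det L ≠ 0 := by rw [hdet]; exact h
  have h1 := Measure.map_linearMap_addHaar_eq_smul_addHaar (volume : Measure (ℝ × ℝ)) hne
  have hLm : Measurable L := L.continuous_of_finiteDimensional.measurable
  have h2 : ∀ q : ℝ × ℝ, f (a * q.1 + b * q.2, c * q.1 + d * q.2) = f (L q) := by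
    intro q
    rw [hL, Matrix.toLin_finTwoProd_apply]
  simp only [h2]
  rw [← lintegral_map hf hLm, h1, lintegral_smul_measure, hdet]
  rfl

/-- substitution of the square -/
theorem subst_sq (h : ℝ → ℝ≥0∞) :
    ∫⁻ r in Ioi (0 : ℝ), h r = ∫⁻ x in Ioi (0 : ℝ), ENNReal.ofReal (2 * x) * h (x ^ 2) := by
  have h1 := lintegral_image_eq_lintegral_abs_deriv_mul (s := Ioi (0 : ℝ)) (f := fun x => x ^ 2)
    (f' := fun x => 2 * x) measurableSet_Ioi
    (fun x _ => by
      have := (hasDerivAt_pow 2 x).hasDerivWithinAt (s := Ioi (0 : ℝ))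
      simpa using this)
    (fun x hx y hy hxy => by
      have hx' : 0 < x := hx
      have hy' : 0 < y := hy
      exact (pow_left_inj₀ hx'.le hy'.le two_ne_zero).mp hxy) h
  have h2 : (fun x : ℝ => x ^ 2) '' Ioi (0 : ℝ) = Ioi 0 := by
    ext y
    constructor
    · rintro ⟨x, hx, rfl⟩
      have hx' : 0 < x := hx
      exact pow_pos hx' 2
    · intro hy
      have hy' : 0 < y := hy
      exact ⟨√y, Real.sqrt_pos.mpr hy', Real.sq_sqrt hy'.le⟩
  rw [h2] at h1
  rw [h1]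
  refine setLIntegral_congr_fun measurableSet_Ioi fun x hx => ?_
  have hx' : 0 < x := hx
  rw [abs_of_pos (by positivity)]

/-- radial functions in the plane -/
theorem polar2 (h : ℝ → ℝ≥0∞) (hh : Measurable h) :
    ∫⁻ q : ℝ × ℝ, h (q.1 ^ 2 + q.2 ^ 2) = ENNReal.ofReal Real.pi * ∫⁻ r in Ioi (0 : ℝ), h r := by
  have h1 := lintegral_comp_polarCoord_symm (fun q : ℝ × ℝ => h (q.1 ^ 2 + q.2 ^ 2))
  rw [← h1]
  have h2 : ∀ p : ℝ × ℝ, (polarCoord.symm p).1 ^ 2 + (polarCoord.symm p).2 ^ 2 = p.1 ^ 2 := by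
    intro p
    rw [polarCoord_symm_apply]
    simp only
    have := Real.cos_sq_add_sin_sq p.2
    linear_combination p.1 ^ 2 * this
  simp only [h2, smul_eq_mul]
  rw [polarCoord_target, Measure.volume_eq_prod, ← Measure.prod_restrict]
  have h3 := lintegral_prod_mul (μ := (volume : Measure ℝ).restrict (Ioi 0))
    (ν := (volume : Measure ℝ).restrict (Ioo (-Real.pi) Real.pi))
    (f := fun x => ENNReal.ofReal x * h (x ^ 2)) (g := fun _ => 1) (by fun_prop) (by fun_prop)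
  simp only [mul_one] at h3
  rw [h3, lintegral_one, Measure.restrict_apply_univ, Real.volume_Ioo, subst_sq h]
  have h4 : ∀ x : ℝ, ENNReal.ofReal (2 * x) * h (x ^ 2)
      = ENNReal.ofReal 2 * (ENNReal.ofReal x * h (x ^ 2)) := by
    intro x
    rw [ENNReal.ofReal_mul (by norm_num), mul_assoc]
  simp only [h4]
  rw [lintegral_const_mul _ (by fun_prop)]
  have h5 : Real.pi - -Real.pi = Real.pi * 2 := by ring
  rw [h5, ENNReal.ofReal_mul Real.pi_pos.le]
  ring

/-- splitting of 2x2 matrices into rows -/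
theorem mat22 (G : Matrix (Fin 2) (Fin 2) ℝ → ℝ≥0∞) :
    ∫⁻ B, G B = ∫⁻ p : (ℝ × ℝ) × (ℝ × ℝ), G !![p.1.1, p.1.2; p.2.1, p.2.2] := by
  have h1 := volume_preserving_piFinTwo (fun _ : Fin 2 => Fin 2 → ℝ)
  have h2 := volume_preserving_piFinTwo (fun _ : Fin 2 => ℝ)
  have h3 := h2.prod h2
  have h4 := h3.comp h1
  let e : (Fin 2 → Fin 2 → ℝ) ≃ᵐ (ℝ × ℝ) × (ℝ × ℝ) :=
    (MeasurableEquiv.piFinTwo (fun _ : Fin 2 => Fin 2 → ℝ)).trans
      ((MeasurableEquiv.piFinTwo (fun _ : Fin 2 => ℝ)).prodCongr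
        (MeasurableEquiv.piFinTwo (fun _ : Fin 2 => ℝ)))
  have he : MeasurePreserving e volume volume := h4
  have h5 := he.symm.lintegral_comp_emb e.symm.measurableEmbedding
    (fun M : Fin 2 → Fin 2 → ℝ => G (Matrix.of M))
  have h6 : ∀ p : (ℝ × ℝ) × (ℝ × ℝ), Matrix.of (e.symm p) = !![p.1.1, p.1.2; p.2.1, p.2.2] := by
    intro p
    ext i j
    fin_cases i <;> fin_cases j <;> rfl
  simp only [h6] at h5
  rw [h5]
  rfl

/-- positive definite 2x2 matrices -/
theorem posDef_two (a b c : ℝ) :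
    (!![a, b; b, c] : Matrix (Fin 2) (Fin 2) ℝ).PosDef ↔ 0 < a ∧ 0 < a * c - b * b := by
  constructor
  · intro h
    have h1 := h.det_pos
    have h2 := h.diag_pos (i := 0)
    rw [Matrix.det_fin_two_of] at h1
    exact ⟨by simpa using h2, h1⟩
  · rintro ⟨ha, hd⟩
    refine Matrix.PosDef.of_dotProduct_mulVec_pos ?_ ?_
    · ext i j
      fin_cases i <;> fin_cases j <;> simp
    · intro x hx
      have h1 : star x ⬝ᵥ (!![a, b; b, c] : Matrix (Fin 2) (Fin 2) ℝ).mulVec x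
          = ((a * x 0 + b * x 1) ^ 2 + (a * c - b * b) * x 1 ^ 2) / a := by
        simp [dotProduct, Matrix.mulVec, Fin.sum_univ_two]
        field_simp
        ring
      rw [h1]
      apply div_pos _ ha
      by_cases h2 : x 1 = 0
      · have h3 : x 0 ≠ 0 := by
          intro h4
          apply hx
          funext i
          fin_cases i
          · exact h4
          · exact h2
        rw [h2]
        have : 0 < (a * x 0 + b * 0) ^ 2 := by
          have : a * x 0 + b * 0 ≠ 0 := by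
            rw [mul_zero, add_zero]
            exact mul_ne_zero ha.ne' h3
          positivity
        nlinarith
      · have : 0 < (a * c - b * b) * x 1 ^ 2 := by positivity
        nlinarith [sq_nonneg (a * x 0 + b * x 1)]

theorem posDef_two_iff_trace (a b c : ℝ) :
    (!![a, b; b, c] : Matrix (Fin 2) (Fin 2) ℝ).PosDef ↔ 0 < a + c ∧ 0 < a * c - b * b := by
  rw [posDef_two]
  constructor
  · rintro ⟨h1, h2⟩
    refine ⟨?_, h2⟩
    have h3 : 0 < a * c := by nlinarith [mul_self_nonneg b]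
    have h4 : 0 < c := (pos_iff_pos_of_mul_pos h3).mp h1
    linarith
  · rintro ⟨h1, h2⟩
    refine ⟨?_, h2⟩
    have h3 : 0 < a * c := by nlinarith [mul_self_nonneg b]
    by_contra h4
    rw [not_lt] at h4
    have h5 : c ≤ 0 := by
      by_contra h6
      rw [not_le] at h6
      nlinarith
    linarith

theorem one_sub_mul (p q u v : ℝ) :
    (1 - (!![p, q; u, v] : Matrix (Fin 2) (Fin 2) ℝ)ᵀ * !![p, q; u, v])
      = !![1 - (p ^ 2 + u ^ 2), -(p * q + u * v); -(p * q + u * v), 1 - (q ^ 2 + v ^ 2)] := by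
  ext i j
  fin_cases i <;> fin_cases j <;> simp [Matrix.mul_apply, Fin.sum_univ_two] <;> ring

/-- membership in the ball -/
theorem mem_Bal (p q u v : ℝ) :
    (!![p, q; u, v] : Matrix (Fin 2) (Fin 2) ℝ) ∈ Bal ↔
      p ^ 2 + q ^ 2 + u ^ 2 + v ^ 2 < 2 ∧
        0 < 1 - (p ^ 2 + q ^ 2 + u ^ 2 + v ^ 2) + (p * v - q * u) ^ 2 := by
  change (1 - (!![p, q; u, v] : Matrix (Fin 2) (Fin 2) ℝ)ᵀ * !![p, q; u, v]).PosDef ↔ _
  rw [one_sub_mul, posDef_two_iff_trace]
  constructor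
  · rintro ⟨h1, h2⟩
    constructor
    · linarith
    · linarith
  · rintro ⟨h1, h2⟩
    constructor
    · linarith
    · linarith

theorem dn_eq (ℓ : ℕ) (p q u v : ℝ) :
    dn ℓ !![p, q; u, v] = (1 - (p ^ 2 + q ^ 2 + u ^ 2 + v ^ 2) + (p * v - q * u) ^ 2) ^
      (((ℓ : ℝ) - 3) / 2) := by
  unfold dn
  rw [one_sub_mul, Matrix.det_fin_two_of]
  congr 1
  ring

/-- truncated power -/
noncomputable def pw (ℓ : ℕ) (D : ℝ) : ℝ≥0∞ :=
  if 0 < D then ENNReal.ofReal (D ^ (((ℓ : ℝ) - 3) / 2)) else 0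

theorem measurable_pw (ℓ : ℕ) : Measurable (pw ℓ) := by
  unfold pw
  refine Measurable.ite (measurableSet_lt measurable_const measurable_id) ?_ measurable_const
  exact (measurable_id.pow_const _).ennreal_ofReal

/-- the one-dimensional beta integral -/
theorem beta_pw (hB : T_BET) (ℓ : ℕ) (hl : 2 ≤ ℓ) :
    ∫⁻ x : ℝ, pw ℓ (1 - x ^ 2) = ENNReal.ofReal (bt (1 / 2) (((ℓ : ℝ) - 1) / 2)) := by
  have hl2 : (2 : ℝ) ≤ ℓ := by exact_mod_cast hl
  obtain ⟨-, h1, h2⟩ := hB 0 (((ℓ : ℝ) - 1) / 2) (by linarith)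
  simp only [mul_zero, pow_zero, one_mul, Nat.cast_zero, zero_add] at h1 h2
  have h3 : ((ℓ : ℝ) - 1) / 2 - 1 = ((ℓ : ℝ) - 3) / 2 := by ring
  rw [h3] at h1 h2
  rw [← h2, ofReal_integral_eq_lintegral_ofReal h1]
  · rw [← lintegral_indicator measurableSet_Ioo]
    congr 1
    funext x
    unfold pw
    by_cases hx : x ∈ Ioo (-1 : ℝ) 1
    · rw [indicator_of_mem hx, if_pos (by nlinarith [hx.1, hx.2])]
    · rw [indicator_of_notMem hx, if_neg]
      intro h4
      apply hx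
      have h5 : x ^ 2 < 1 := by linarith
      exact abs_lt.mp ((sq_lt_one_iff_abs_lt_one x).mp h5)
  · rw [Filter.EventuallyLE, ae_restrict_iff' measurableSet_Ioo]
    refine Filter.Eventually.of_forall fun x hx => ?_
    have : 0 < 1 - x ^ 2 := by nlinarith [hx.1, hx.2]
    simp only [Pi.zero_apply]
    positivity

/-- scaled version; `k` is the scale of the variable -/
theorem beta_pw_scale (hB : T_BET) (ℓ : ℕ) (hl : 2 ≤ ℓ) (k : ℝ) (hk : 0 < k) (Y : ℝ) (hY : 0 < Y) :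
    ∫⁻ s : ℝ, pw ℓ (Y - (k * s) ^ 2)
      = ENNReal.ofReal (k⁻¹ * Y ^ ((ℓ : ℝ) / 2 - 1) * bt (1 / 2) (((ℓ : ℝ) - 1) / 2)) := by
  have hsY : 0 < √Y := Real.sqrt_pos.mpr hY
  have hsq : √Y ^ 2 = Y := Real.sq_sqrt hY.le
  have h1 : ∀ s : ℝ, pw ℓ (Y - (k * s) ^ 2)
      = ENNReal.ofReal (Y ^ (((ℓ : ℝ) - 3) / 2)) * pw ℓ (1 - (k / √Y * s) ^ 2) := by
    intro s
    have h2 : Y - (k * s) ^ 2 = Y * (1 - (k / √Y * s) ^ 2) := by
      rw [mul_pow (k / √Y) s 2, div_pow, hsq]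
      field_simp
    rw [h2]
    unfold pw
    by_cases h3 : 0 < 1 - (k / √Y * s) ^ 2
    · rw [if_pos (mul_pos hY h3), if_pos h3, Real.mul_rpow hY.le h3.le,
        ENNReal.ofReal_mul (by positivity)]
    · rw [if_neg h3, if_neg, mul_zero]
      rw [not_lt] at h3 ⊢
      nlinarith
  simp only [h1]
  have hm : Measurable fun s : ℝ => pw ℓ (1 - (k / √Y * s) ^ 2) :=
    (measurable_pw ℓ).comp (by fun_prop)
  rw [lintegral_const_mul _ hm]
  have h4 : ∫⁻ s : ℝ, pw ℓ (1 - (k / √Y * s) ^ 2)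
      = ENNReal.ofReal |(k / √Y)⁻¹| * ∫⁻ x : ℝ, pw ℓ (1 - x ^ 2) := by
    have h5 : k / √Y ≠ 0 := by positivity
    have h6 := Measure.map_linearMap_addHaar_eq_smul_addHaar (volume : Measure ℝ)
      (f := (LinearMap.mul ℝ ℝ) (k / √Y)) (by
        rw [LinearMap.det_ring]
        simpa using h5)
    have h7 : Measurable (fun x : ℝ => pw ℓ (1 - x ^ 2)) := (measurable_pw ℓ).comp (by fun_prop)
    have h8 := lintegral_map h7 (f := fun x : ℝ => pw ℓ (1 - x ^ 2))
      (g := (LinearMap.mul ℝ ℝ) (k / √Y)) (μ := volume)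
      (LinearMap.continuous_of_finiteDimensional _).measurable
    rw [h6, lintegral_smul_measure] at h8
    rw [LinearMap.det_ring] at h8
    simpa using h8.symm
  rw [h4, beta_pw hB ℓ hl, ← ENNReal.ofReal_mul (abs_nonneg _), ← ENNReal.ofReal_mul (by positivity)]
  congr 1
  rw [abs_of_pos (by positivity)]
  have h5 : Y ^ ((ℓ : ℝ) / 2 - 1) = Y ^ (((ℓ : ℝ) - 3) / 2) * √Y := by
    rw [Real.sqrt_eq_rpow, ← Real.rpow_add hY]
    congr 1
    ring
  rw [h5]
  field_simp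

end Pool.Agent.H30.TO
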