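import Pool.Agent.H30.TO.Tool

/-!
Module W2B for MP_b4e73a_pr (helper84): integration over the unit ball of 2x2 matrices in the
coordinates (first row, determinant).
-/

open MeasureTheory Matrix Set
open scoped ENNReal
open Pool.Agent.H84.TO

namespace Pool.Agent.H30.TO

theorem measurableSet_Bal : MeasurableSet Bal := by
  have h1 : Bal = {B : Matrix (Fin 2) (Fin 2) ℝ |
      B 0 0 ^ 2 + B 0 1 ^ 2 + B 1 0 ^ 2 + B 1 1 ^ 2 < 2} ∩ {B : Matrix (Fin 2) (Fin 2) ℝ |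
        0 < 1 - (B 0 0 ^ 2 + B 0 1 ^ 2 + B 1 0 ^ 2 + B 1 1 ^ 2) +
          (B 0 0 * B 1 1 - B 0 1 * B 1 0) ^ 2} := by
    ext B
    rw [Matrix.eta_fin_two B, mem_Bal, mem_inter_iff]
    simp
  rw [h1]
  have hm : ∀ i j : Fin 2, Measurable fun B : Matrix (Fin 2) (Fin 2) ℝ => B i j := fun i j =>
    (measurable_pi_apply j).comp (measurable_pi_apply (X := fun _ : Fin 2 => Fin 2 → ℝ) i)
  refine MeasurableSet.inter (measurableSet_lt ?_ measurable_const) (measurableSet_lt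
    measurable_const ?_)
  · exact ((((hm 0 0).pow_const 2).add ((hm 0 1).pow_const 2)).add ((hm 1 0).pow_const 2)).add
      ((hm 1 1).pow_const 2)
  · exact (measurable_const.sub (((((hm 0 0).pow_const 2).add ((hm 0 1).pow_const 2)).add
      ((hm 1 0).pow_const 2)).add ((hm 1 1).pow_const 2))).add
      ((((hm 0 0).mul (hm 1 1)).sub ((hm 0 1).mul (hm 1 0))).pow_const 2)

/-- the integrand in terms of the rows -/
noncomputable def KK (ℓ : ℕ) (g : ℝ → ℝ → ℝ≥0∞) (p : (ℝ × ℝ) × (ℝ × ℝ)) : ℝ≥0∞ :=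
  if p.1.1 ^ 2 + p.1.2 ^ 2 < 1 then
    g (p.1.1 ^ 2 + p.1.2 ^ 2) (p.1.1 * p.2.2 - p.1.2 * p.2.1) *
      pw ℓ (1 - (p.1.1 ^ 2 + p.1.2 ^ 2 + p.2.1 ^ 2 + p.2.2 ^ 2) +
        (p.1.1 * p.2.2 - p.1.2 * p.2.1) ^ 2) else 0

theorem measurable_KK (ℓ : ℕ) {g : ℝ → ℝ → ℝ≥0∞} (hg : Measurable (Function.uncurry g)) :
    Measurable (KK ℓ g) := by
  unfold KK
  refine Measurable.ite (measurableSet_lt (by fun_prop) measurable_const) ?_ measurable_const
  refine Measurable.mul ?_ ((measurable_pw ℓ).comp (by fun_prop))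
  have h1 : Measurable fun p : (ℝ × ℝ) × (ℝ × ℝ) =>
      (p.1.1 ^ 2 + p.1.2 ^ 2, p.1.1 * p.2.2 - p.1.2 * p.2.1) := by fun_prop
  exact hg.comp h1

theorem indicator_eq_KK (ℓ : ℕ) (g : ℝ → ℝ → ℝ≥0∞) (p : (ℝ × ℝ) × (ℝ × ℝ)) :
    indicator Bal (fun B : Matrix (Fin 2) (Fin 2) ℝ =>
      g (B 0 0 ^ 2 + B 0 1 ^ 2) B.det * ENNReal.ofReal (dn ℓ B)) !![p.1.1, p.1.2; p.2.1, p.2.2]
      = KK ℓ g p := by
  obtain ⟨⟨a, b⟩, ⟨u, v⟩⟩ := p
  simp only
  unfold KK pw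
  simp only
  by_cases h : (!![a, b; u, v] : Matrix (Fin 2) (Fin 2) ℝ) ∈ Bal
  · rw [indicator_of_mem h]
    rw [mem_Bal] at h
    have h1 : a ^ 2 + b ^ 2 < 1 := by
      have h3 : 0 < (1 - (a ^ 2 + b ^ 2)) * (1 - (u ^ 2 + v ^ 2)) := by
        nlinarith [sq_nonneg (a * u + b * v), h.2]
      by_contra h4
      rw [not_lt] at h4
      have h5 : 1 ≤ u ^ 2 + v ^ 2 := by
        by_contra h6
        rw [not_le] at h6
        nlinarith
      have := h.1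
      have h6 : a ^ 2 + b ^ 2 + (u ^ 2 + v ^ 2) < 2 := by linarith
      linarith
    rw [if_pos h1, if_pos h.2, dn_eq, Matrix.det_fin_two_of]
    simp
  · rw [indicator_of_notMem h]
    rw [mem_Bal] at h
    by_cases h1 : a ^ 2 + b ^ 2 < 1
    · rw [if_pos h1]
      by_cases h2 : 0 < 1 - (a ^ 2 + b ^ 2 + u ^ 2 + v ^ 2) + (a * v - b * u) ^ 2
      · exfalso
        apply h
        refine ⟨?_, h2⟩
        have h3 : 0 < (1 - (a ^ 2 + b ^ 2)) * (1 - (u ^ 2 + v ^ 2)) := by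
          nlinarith [sq_nonneg (a * u + b * v)]
        have h4 : 0 < 1 - (u ^ 2 + v ^ 2) := (pos_iff_pos_of_mul_pos h3).mp (by linarith)
        linarith
      · rw [if_neg h2, mul_zero]
    · rw [if_neg h1]

theorem exists_unit (a b : ℝ) : ∃ α β : ℝ, α ^ 2 + β ^ 2 = 1 ∧
    a = √(a ^ 2 + b ^ 2) * α ∧ b = √(a ^ 2 + b ^ 2) * β := by
  by_cases h : a ^ 2 + b ^ 2 = 0
  · have ha : a = 0 := by nlinarith [sq_nonneg a, sq_nonneg b]
    have hb : b = 0 := by nlinarith [sq_nonneg a, sq_nonneg b]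
    exact ⟨1, 0, by norm_num, by simp [ha, hb], by simp [ha, hb]⟩
  · have h1 : 0 < a ^ 2 + b ^ 2 := lt_of_le_of_ne (by positivity) (Ne.symm h)
    have h2 : 0 < √(a ^ 2 + b ^ 2) := Real.sqrt_pos.mpr h1
    refine ⟨a / √(a ^ 2 + b ^ 2), b / √(a ^ 2 + b ^ 2), ?_, ?_, ?_⟩
    · rw [div_pow, div_pow, Real.sq_sqrt h1.le, ← add_div, div_self h]
    · field_simp
    · field_simp

/-- the inner integral -/
noncomputable def Phi1 (ℓ : ℕ) (g : ℝ → ℝ → ℝ≥0∞) (r : ℝ) : ℝ≥0∞ :=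
  if r < 1 then ∫⁻ q : ℝ × ℝ, g r (√r * q.2) * pw ℓ ((1 - r) * (1 - q.2 ^ 2) - q.1 ^ 2) else 0

theorem inner_eq (ℓ : ℕ) {g : ℝ → ℝ → ℝ≥0∞} (hg : Measurable (Function.uncurry g)) (b1 : ℝ × ℝ) :
    ∫⁻ b2, KK ℓ g (b1, b2) = Phi1 ℓ g (b1.1 ^ 2 + b1.2 ^ 2) := by
  obtain ⟨a, b⟩ := b1
  simp only
  obtain ⟨α, β, h1, ha, hb⟩ := exists_unit a b
  set r := a ^ 2 + b ^ 2 with hr
  have hr0 : 0 ≤ r := by positivity
  have hsq : √r ^ 2 = r := Real.sq_sqrt hr0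
  have hm : Measurable fun b2 : ℝ × ℝ => KK ℓ g ((a, b), b2) :=
    (measurable_KK ℓ hg).comp (by fun_prop)
  have h2 := lin2 α (-β) β α (by nlinarith) (fun b2 => KK ℓ g ((a, b), b2)) hm
  have h3 : |(α * α - -β * β)⁻¹| = 1 := by
    have : α * α - -β * β = 1 := by nlinarith
    rw [this]
    norm_num
  rw [h3, ENNReal.ofReal_one, one_mul] at h2
  rw [← h2]
  unfold Phi1 KK
  simp only
  by_cases hr1 : r < 1
  · rw [if_pos hr1]
    congr 1
    funext q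
    rw [if_pos hr1]
    have e1 : a * (β * q.1 + α * q.2) - b * (α * q.1 + -β * q.2) = √r * q.2 := by
      rw [ha, hb]
      linear_combination √r * q.2 * h1
    have e2 : a ^ 2 + b ^ 2 + (α * q.1 + -β * q.2) ^ 2 + (β * q.1 + α * q.2) ^ 2
        = r + q.1 ^ 2 + q.2 ^ 2 := by
      rw [← hr]
      linear_combination (q.1 ^ 2 + q.2 ^ 2) * h1
    rw [e1, e2, mul_pow, hsq]
    congr 2
    ring
  · rw [if_neg hr1]
    simp only [if_neg (show ¬ (a ^ 2 + b ^ 2 < 1) from hr1)]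
    simp

theorem Phi1_eq (hB : T_BET) (ℓ : ℕ) (hl : 2 ≤ ℓ) {g : ℝ → ℝ → ℝ≥0∞}
    (hg : Measurable (Function.uncurry g)) (r : ℝ) :
    Phi1 ℓ g r = indicator (Iio 1) (fun r => ENNReal.ofReal (bt (1 / 2) (((ℓ : ℝ) - 1) / 2)) *
      ∫⁻ t in Set.Ioo (-1 : ℝ) 1, g r (Real.sqrt r * t) *
          ENNReal.ofReal ((1 - r) ^ ((ℓ : ℝ) / 2 - 1) * (1 - t ^ 2) ^ ((ℓ : ℝ) / 2 - 1))) r := by
  unfold Phi1
  by_cases hr : r < 1
  · rw [if_pos hr, indicator_of_mem (show r ∈ Iio 1 from hr)]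
    have hgr : Measurable fun t : ℝ => g r (√r * t) := by
      have : Measurable fun t : ℝ => (r, √r * t) := by fun_prop
      exact hg.comp this
    have hm : Measurable fun q : ℝ × ℝ => g r (√r * q.2) *
        pw ℓ ((1 - r) * (1 - q.2 ^ 2) - q.1 ^ 2) := by
      refine (hgr.comp measurable_snd).mul ((measurable_pw ℓ).comp (by fun_prop))
    have h1 : ∫⁻ q : ℝ × ℝ, g r (√r * q.2) * pw ℓ ((1 - r) * (1 - q.2 ^ 2) - q.1 ^ 2)
        = ∫⁻ t : ℝ, ∫⁻ s : ℝ, g r (√r * t) * pw ℓ ((1 - r) * (1 - t ^ 2) - s ^ 2) := by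
      rw [Measure.volume_eq_prod, lintegral_prod_symm' _ hm]
    rw [h1]
    have h2 : ∀ t : ℝ, ∫⁻ s : ℝ, g r (√r * t) * pw ℓ ((1 - r) * (1 - t ^ 2) - s ^ 2)
        = indicator (Ioo (-1 : ℝ) 1) (fun t => ENNReal.ofReal (bt (1 / 2) (((ℓ : ℝ) - 1) / 2)) *
          (g r (√r * t) * ENNReal.ofReal ((1 - r) ^ ((ℓ : ℝ) / 2 - 1) *
            (1 - t ^ 2) ^ ((ℓ : ℝ) / 2 - 1)))) t := by
      intro t
      have hms : Measurable fun s : ℝ => pw ℓ ((1 - r) * (1 - t ^ 2) - s ^ 2) :=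
        (measurable_pw ℓ).comp (by fun_prop)
      rw [lintegral_const_mul _ hms]
      by_cases ht : t ∈ Ioo (-1 : ℝ) 1
      · rw [indicator_of_mem ht]
        have h3 : 0 < 1 - t ^ 2 := by nlinarith [ht.1, ht.2]
        have h4 : 0 < 1 - r := by linarith
        have h5 := beta_pw_scale hB ℓ hl 1 one_pos ((1 - r) * (1 - t ^ 2)) (mul_pos h4 h3)
        simp only [one_mul, inv_one] at h5
        rw [h5, ENNReal.ofReal_mul (by positivity), Real.mul_rpow h4.le h3.le]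
        ring
      · rw [indicator_of_notMem ht]
        have h3 : ∀ s : ℝ, pw ℓ ((1 - r) * (1 - t ^ 2) - s ^ 2) = 0 := by
          intro s
          unfold pw
          rw [if_neg]
          intro h4
          apply ht
          have h5 : t ^ 2 < 1 := by
            by_contra h6
            rw [not_lt] at h6
            nlinarith [sq_nonneg s]
          exact abs_lt.mp ((sq_lt_one_iff_abs_lt_one t).mp h5)
        simp [h3]
    simp only [h2]
    rw [lintegral_indicator measurableSet_Ioo, lintegral_const_mul]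
    refine hgr.mul ?_
    fun_prop
  · rw [if_neg hr, indicator_of_notMem (show r ∉ Iio 1 from hr)]

theorem w2b (hB : T_BET) : T_W2B := by
  intro ℓ hl g hg
  rw [← lintegral_indicator measurableSet_Bal, mat22]
  simp only [indicator_eq_KK]
  rw [Measure.volume_eq_prod, lintegral_prod _ (measurable_KK ℓ hg).aemeasurable]
  simp only [inner_eq ℓ hg]
  have hPhi : Measurable (Phi1 ℓ g) := by
    have h1 : Measurable fun r : ℝ => ∫⁻ q : ℝ × ℝ, g r (√r * q.2) *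
        pw ℓ ((1 - r) * (1 - q.2 ^ 2) - q.1 ^ 2) := by
      have h2 : Measurable fun z : ℝ × (ℝ × ℝ) => g z.1 (√z.1 * z.2.2) *
          pw ℓ ((1 - z.1) * (1 - z.2.2 ^ 2) - z.2.1 ^ 2) := by
        have h3 : Measurable fun z : ℝ × (ℝ × ℝ) => (z.1, √z.1 * z.2.2) := by fun_prop
        exact (hg.comp h3).mul ((measurable_pw ℓ).comp (by fun_prop))
      exact h2.lintegral_prod_right'
    exact Measurable.ite measurableSet_Iio h1 measurable_const
  rw [polar2 _ hPhi]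
  simp only [Phi1_eq hB ℓ hl hg]
  rw [lintegral_indicator measurableSet_Iio, Measure.restrict_restrict measurableSet_Iio]
  have h1 : Iio (1 : ℝ) ∩ Ioi 0 = Ioo 0 1 := by
    rw [inter_comm]
    rfl
  rw [h1]
  have hm : Measurable fun r : ℝ => ∫⁻ t in Set.Ioo (-1 : ℝ) 1, g r (Real.sqrt r * t) *
      ENNReal.ofReal ((1 - r) ^ ((ℓ : ℝ) / 2 - 1) * (1 - t ^ 2) ^ ((ℓ : ℝ) / 2 - 1)) := by
    have h2 : Measurable fun z : ℝ × ℝ => g z.1 (√z.1 * z.2) *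
        ENNReal.ofReal ((1 - z.1) ^ ((ℓ : ℝ) / 2 - 1) * (1 - z.2 ^ 2) ^ ((ℓ : ℝ) / 2 - 1)) := by
      have h3 : Measurable fun z : ℝ × ℝ => (z.1, √z.1 * z.2) := by fun_prop
      exact (hg.comp h3).mul (by fun_prop)
    exact h2.lintegral_prod_right'
  rw [lintegral_const_mul _ hm, ← mul_assoc, ← ENNReal.ofReal_mul Real.pi_pos.le]

end Pool.Agent.H30.TO
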